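import Pool.Agent.AVF.StW
import Pool.Agent.AVF.StT
import Pool.Agent.AVF.StF
import Pool.Agent.AVF.BRI
import Pool.Agent.AVF.SHR
import Pool.Agent.AVF.WG4

/-!
# AVF: the facts of the blocks T and Q in the form used in the block W (helper79, after VMF/ADW)
-/

set_option autoImplicit false
set_option linter.unusedSectionVars false
set_option linter.unusedVariables false

namespace Pool.Agent.AVF.BW

open Set Pool.Agent.AVC Pool.Agent.AVC.Ax

theorem thm_WPU : St_WPU := by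
  intro R _ _ U hU M hM ι _ φ x
  exact ⟨el_asat hM φ x, el_sat hM φ x⟩

theorem thm_WHO (h : St_HOMP) : St_WHO := by
  intro R _ _ U hU ι _ a b hab
  exact h R U hU ι a b hab

theorem thm_WG4 : St_WG4 := by
  intro R _ _ U hU κ ι _ _ c S z₀
  exact thm_WG4A hU c S z₀

/-- the class `Own R U` and the group `U` -/
private theorem ADW_gen {R : Type} [RSig R] {U : Ad R} {ι κ : Type} {N : Submodule R U}
    (hN : El U N) {c : κ → N} {b : ι → N} {θ : PP R (κ ⊕ ι)}
    (h : HGen (R := R) U (app (R := R) U (fun i => (c i : U))) N c b θ) :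
    GenBy U (fun i => (c i : U)) (fun j => (b j : U)) θ := by
  have h1 : (fun i => ((Sum.elim c b i : N) : U)) =
      Sum.elim (fun i => (c i : U)) (fun j => (b j : U)) := by
    funext i
    cases i <;> rfl
  refine ⟨?_, fun x y hx hy ψ hψ => ?_⟩
  · rw [← h1]
    exact (el_asat hN θ _).1 h.1
  · have h2 : ASat ψ N (Sum.elim c b) := by
      rw [el_asat hN, h1]
      exact hψ
    obtain ⟨s, hs, h3, -⟩ := h.2 ψ h2
    exact h3 x y (fun φ hφ => hx φ (hs hφ)) hy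

theorem thm_WPR (h : St_PRM) : St_WPR := by
  intro R _ _ U hU κ _ b
  obtain ⟨N, c, hN, hc, hH⟩ := h R U hU κ b
  have hb : b = fun i => (c i : U) := funext fun i => (hc i).symm
  subst hb
  refine ⟨N, hN, fun i => (c i).2, fun l d => ?_⟩
  obtain ⟨θ, h1⟩ := hH (Fin l) d
  exact ⟨θ, ADW_gen hN h1⟩

theorem thm_WTL (h : St_TLI) : St_WTL := by
  intro R _ _ U hU I _ c
  obtain ⟨N, c', h1, h2, h3⟩ := h R U hU I (fun A => app (R := R) U (fun i : A => c i))
    (fun A => ⟨_, rfl⟩) (by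
      intro A B hAB φ
      show ASat φ U _ ↔ ASat (ren (fun i : A => (⟨i.1, hAB i.2⟩ : B)) φ) U _
      rw [asat_ren]
      exact Iff.rfl)
  have h4 : ∀ F : Finset I, app (R := R) U (fun i : F => (c' i : U)) =
      app (R := R) U (fun i : F => c i) := by
    intro F
    rw [← h2 F]
    exact (el_app h1 _).symm
  refine ⟨N, h1, c', h4, fun l b F₀ => ?_⟩
  obtain ⟨F, h5, θ, h6⟩ := h3 (Fin l) b F₀
  refine ⟨F, h5, θ, ?_⟩
  rw [← h4 F] at h6
  exact ADW_gen h1 h6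

theorem thm_WC5 (h : St_COS) : St_WC5 := by
  intro R _ _ U hU M hM ι _ χ ψ t h1 h2
  let a : Fin 0 → U := fun i => i.elim0
  have h3 : ∀ x : ι → U, ASat (ren (Sum.inr : ι → Fin 0 ⊕ ι) (hom χ)) U (Sum.elim a x) ↔
      Sat χ U x := by
    intro x
    rw [asat_ren, asat_hom]
    exact Iff.rfl
  have h4 : grp U ({zer (ren (Sum.inr : ι → Fin 0 ⊕ ι) (hom χ))} : Set (PP R ι)) = grp U {χ} := by
    ext x
    rw [mem_grp, mem_grp]
    have h5 : Sat (zer (ren (Sum.inr : ι → Fin 0 ⊕ ι) (hom χ))) U x ↔ Sat χ U x := by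
      rw [sat_zer, sat_ren, sat_hom]
      exact Iff.rfl
    constructor
    · rintro h6 φ rfl
      exact h5.1 (h6 _ rfl)
    · rintro h6 φ rfl
      exact h5.2 (h6 _ rfl)
  obtain ⟨y, hy, h5, h6⟩ := h R U M hM (Fin 0) ι a (ren Sum.inr (hom χ)) ψ t
    (fun i => i.elim0) ((h3 t).2 h1) (by
      unfold FIn at h2 ⊢
      rwa [h4])
  exact ⟨fun i => ⟨y i, hy i⟩, (h3 _).1 h5, h6⟩

theorem thm_WC6 (h : St_TF6) : St_WC6 := by
  intro R _ _ U hU M hM ι _ S ψ t h1 h2 h3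
  obtain ⟨y, hy, h4, h5⟩ := h R U hU M hM ι S {ψ} t h1 h3 h2
  exact ⟨fun i => ⟨y i, hy i⟩, h4, h5 ψ rfl⟩

theorem thm_WON : St_WON := by
  intro R _ _ U hU hA ι _ S
  have hsub : S ⊆ one U S := by
    intro φ hφ
    refine ⟨?_, fun χ hχ x hx ψ hψ => ?_⟩
    · have h1 : grp U S ≤ grp U ({φ} : Set (PP R ι)) := by
        rintro x hx ψ rfl
        exact hx _ hφ
      unfold FIn
      rw [AddSubgroup.relIndex_eq_one.2 h1]
      exact one_ne_zero
    · rw [mem_singleton_iff.1 hψ]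
      exact hχ x hx φ hφ
  refine ⟨?_, fun x hx φ hφ => hx φ (hsub hφ)⟩
  rintro x hx ψ ⟨h1, h2⟩
  refine hx ψ ⟨?_, fun χ hχ y hy => ?_⟩
  · have h3 : FIn U S (one U S ∪ {ψ}) :=
      (hA ι S).trans' (h1.of_ge (grp_anti subset_union_right))
    exact h3.of_le (grp_anti subset_union_right)
  · exact h2 χ (fun z hz φ hφ => hφ.2 χ hχ z hz φ rfl) y hy

theorem thm_WKI (h : St_KIL) : St_WKI := by
  intro R _ _ U hU κ ι _ _ S θ W h1 h2 h3 u y h4 h5 ψ hψ
  exact h R U hU κ ι S θ W ψ h1 hψ.1 hψ.2 h2 h3 u y h4 h5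

end Pool.Agent.AVF.BW
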