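import Pool.Agent.AVF.W.WGV

/-!
# AVF, W2A: case 2a, one model in `K_E` (helper79, after VMF/W2A)
-/

set_option autoImplicit false
set_option linter.unusedSectionVars false
set_option linter.unusedVariables false

namespace Pool.Agent.AVF.BW

open Set Pool.Agent.AVC Pool.Agent.AVC.Ax

private theorem W2A_fin {R : Type} [RSig R] {U : Type} [AddCommGroup U] [MoS R U] {ι : Type}
    (V : Set (PP R ι)) (h : FIn U V (one U V)) :
    Finite (grp U V ⧸ (grp U (one U V)).addSubgroupOf (grp U V)) := by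
  have h2 : ((grp U (one U V)).addSubgroupOf (grp U V)).index ≠ 0 := h
  by_contra h3
  rw [not_finite_iff_infinite] at h3
  exact h2 (AddSubgroup.index_eq_zero_iff_infinite.2 h3)

private theorem W2A_cl {R : Type} [RSig R] {U : Type} [AddCommGroup U] [MoS R U] {ι : Type}
    (V : Set (PP R ι)) (a b : grp U V)
    (hab : (QuotientAddGroup.mk a : grp U V ⧸ (grp U (one U V)).addSubgroupOf (grp U V)) =
      QuotientAddGroup.mk b) : Re (one U V) U ((a : ι → U) - (b : ι → U)) := by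
  rw [QuotientAddGroup.eq, AddSubgroup.mem_addSubgroupOf] at hab
  have h1 : Re (one U V) U (-(a : ι → U) + (b : ι → U)) := hab
  have h2 := h1.neg
  have h3 : -(-(a : ι → U) + (b : ι → U)) = (a : ι → U) - (b : ι → U) := by
    abel
  rwa [h3] at h2

theorem thm_W2A (hG4 : St_WG4) (hGV : St_WGV) (hPR : St_WPR) (hJN : St_WJN) (hPP : St_WPP)
    (hPD : St_WPD) (hRV : St_WRV) (hRR : St_WRR) (hIM : St_WIM) (hPU : St_WPU) : St_W2A := by
  classical
  intro R _ _ U hU hA α _ E n V W hC hF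
  have hre : ∀ (M : Submodule R U), El U M → ∀ (x : Fin n → M),
      Re V M x ↔ Re V U (fun i => (x i : U)) :=
    fun M hM x => forall₂_congr fun φ _ => (hPU R U hU M hM (Fin n) φ x).2
  choose M hM x hxV hxW using hC.2.1
  choose ee hee using fun k => (hM k).2
  let G : AddSubgroup (Fin n → U) := grp U V
  let H : AddSubgroup (Fin n → U) := grp U (one U V)
  have hfin : Finite (G ⧸ H.addSubgroupOf G) := W2A_fin V (hA (Fin n) V)
  have hcl : ∀ a b : G, (QuotientAddGroup.mk a : G ⧸ H.addSubgroupOf G) = QuotientAddGroup.mk b →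
      Re (one U V) U ((a : Fin n → U) - (b : Fin n → U)) := fun a b hab => W2A_cl V a b hab
  let GE : AddSubgroup (α → U) := grp U E
  let HE : AddSubgroup (α → U) := grp U (one U E)
  have hfinE : Finite (GE ⧸ HE.addSubgroupOf GE) := W2A_fin E (hA α E)
  let f : ℕ → GE ⧸ HE.addSubgroupOf GE := fun k => QuotientAddGroup.mk
    (⟨(fun i => (ee k i : U)) - fun i => (ee 0 i : U), (hee k).sub (hee 0)⟩ : GE)
  let Φ : Submodule R U → Set (G ⧸ H.addSubgroupOf G) := fun M =>
    {q | ∃ (y : Fin n → M) (h : Re V U (fun i => (y i : U))),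
      (QuotientAddGroup.mk (⟨fun i => (y i : U), h⟩ : G) : G ⧸ H.addSubgroupOf G) = q}
  obtain ⟨⟨Φ', q'⟩, hΦq⟩ := Finite.exists_infinite_fiber (fun k => (Φ (M k), f k))
  have hinf : ((fun k => (Φ (M k), f k)) ⁻¹' {(Φ', q')}).Infinite := Set.infinite_coe_iff.1 hΦq
  obtain ⟨k₀, hk₀⟩ := hinf.nonempty
  have hk₀' : f k₀ = q' := congrArg Prod.snd hk₀
  -- the generic solution of `E`
  obtain ⟨e, he1, he2⟩ := hG4 R U hU Empty α (fun a => a.elim) (one U E)
    (fun i => (ee k₀ i : U))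
  have heE : ARe E U e := by
    have h1 := (hee k₀).add (re_of_one E _ he1)
    rwa [add_sub_cancel] at h1
  have heF : FIn U E (app (R := R) U e) := by
    have h1 : (grp U (afib (R := R) U (fun a : Empty => a.elim) e)).relIndex (grp U E) ≠ 0 :=
      AddSubgroup.relIndex_ne_zero_trans he2 (hA α E)
    intro h0
    refine h1 (AddSubgroup.relIndex_eq_zero_of_le_left ?_ h0)
    intro y hy
    have h2 := re_app_comp Sum.inr (re_afib.1 (show Re (afib (R := R) U _ e) U y from hy))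
    exact h2
  obtain ⟨m, ⟨u⟩⟩ := Finite.exists_equiv_fin Φ'
  choose z hz using fun j : Fin m => QuotientAddGroup.mk_surjective (u.symm j).1
  obtain ⟨g, hg1, hg2, hg3⟩ := hGV R U hU hA α (Fin n) e V m (fun j => (z j : Fin n → U))
    (fun j => (z j).2)
  let b : α ⊕ (Fin m × Fin n) → U := Sum.elim e (fun p => g p.1 p.2)
  have hbJ : ∀ x : α ⊕ (Fin m × Fin n) → U, Re (app (R := R) U b) U x →
      Re (jn E (pw V m)) U x := by
    intro x hx
    rw [re_jn]
    exact ⟨re_app_are (re_app_comp Sum.inl hx) heE,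
      re_app_re (re_app_comp Sum.inr hx) ((re_pw V m _).2 hg1)⟩
  have hbF : FIn U (jn E (pw V m)) (app (R := R) U b) :=
    hJN R U hU α (Fin m × Fin n) e (fun p => g p.1 p.2) E (pw V m) heF hg3 hbJ
  obtain ⟨N, hN, hb⟩ := hPR R U hU (α ⊕ (Fin m × Fin n)) b
  refine ⟨α ⊕ (Fin m × Fin n), inferInstance, b, N, ⟨hN, fun i => ⟨e i, hb.1 (Sum.inl i)⟩, heE⟩,
    hb, ?_⟩
  refine hinf.mono ?_
  intro k hk
  have hk' : Φ (M k) = Φ' := congrArg Prod.fst hk
  have hkE : f k = q' := congrArg Prod.snd hk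
  by_contra hcon
  have hNW : ∀ y : Fin n → N, Re V N y → Sat1 (W k) N y := by
    intro y hy
    by_contra h
    exact hcon ⟨y, hy, h⟩
  obtain ⟨ψ, hψ⟩ := hF k
  have hMk : El U (M k) := (hM k).1
  -- the classes of the g j are realised in M k
  have h1 : ∀ j, ∃ y : Fin n → M k, Re (one U V) U ((fun i => (y i : U)) - g j) := by
    intro j
    have h2 : (u.symm j).1 ∈ Φ (M k) := by
      rw [hk']
      exact (u.symm j).2
    obtain ⟨y, hy, hy'⟩ := h2
    refine ⟨y, ?_⟩
    have h3 := hcl _ _ (hy'.trans (hz j).symm)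
    have h4 := h3.sub (hg2 j)
    have h5 : (fun i => (y i : U)) - (z j : Fin n → U) - (g j - (z j : Fin n → U)) =
        (fun i => (y i : U)) - g j := by
      abel
    rw [← h5]
    exact h4
  choose y hy using h1
  -- the class of e
  have h2 : Re (one U E) U ((fun i => (ee k i : U)) - e) := by
    have h3 := W2A_cl E _ _ (hkE.trans hk₀'.symm)
    have h4 := h3.sub he1
    have h5 : ((fun i => (ee k i : U)) - fun i => (ee 0 i : U)) -
        ((fun i => (ee k₀ i : U)) - fun i => (ee 0 i : U)) - (e - fun i => (ee k₀ i : U)) =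
        (fun i => (ee k i : U)) - e := by
      abel
    rw [← h5]
    exact h4
  let b' : α ⊕ (Fin m × Fin n) → M k := Sum.elim (ee k) (fun p => y p.1 p.2)
  have hb' : Re (one U (jn E (pw V m))) U ((fun i => (b' i : U)) - b) := by
    refine hPD R U.md hU.md α (Fin m × Fin n) E (pw V m) _ h2 ?_
    exact hPP R U.md hU.md (Fin n) V m _ hy
  obtain ⟨b'', hb''⟩ := hRV R U hU hA (α ⊕ (Fin m × Fin n)) b (jn E (pw V m)) hbF hbJ (M k) hMk
    b' hb'
  refine hxW k (hIM R U hU hA n V (W k) ψ N (M k) hN hMk hψ ?_ ?_ hNW (x k) (hxV k))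
  · intro y hy
    have hy1 : Re V U (fun i => (y i : U)) := (hre (M k) hMk y).1 hy
    have h2 : (QuotientAddGroup.mk (⟨fun i => (y i : U), hy1⟩ : G) : G ⧸ H.addSubgroupOf G) ∈
        Φ' := by
      rw [← hk']
      exact ⟨y, hy1, rfl⟩
    have h3 := hz (u ⟨_, h2⟩)
    rw [Equiv.symm_apply_apply] at h3
    have h4 := (hcl _ _ h3).add (hg2 (u ⟨_, h2⟩))
    refine ⟨fun i => ⟨g (u ⟨_, h2⟩) i, hb.1 (Sum.inr (u ⟨_, h2⟩, i))⟩, ?_⟩
    have h5 : (z (u ⟨_, h2⟩) : Fin n → U) - (fun i => (y i : U)) +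
        (g (u ⟨_, h2⟩) - (z (u ⟨_, h2⟩) : Fin n → U)) =
        g (u ⟨_, h2⟩) - (fun i => (y i : U)) := by
      abel
    have h6 : Re (one U V) U (g (u ⟨_, h2⟩) - (fun i => (y i : U))) := by
      rw [← h5]
      exact h4
    exact h6
  · intro c hc
    exact hRR R U hU hA (α ⊕ (Fin m × Fin n)) b N (M k) hN hMk hb b'' hb''
      (Fin n ⊕ Fin (W k).1) _ c hc

end Pool.Agent.AVF.BW
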