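import Pool.Agent.AVF.StW

/-!
# AVF [WC1]: case 1 (port of VMF/WC1.lean, helper22)
-/

set_option autoImplicit false
set_option linter.unusedSectionVars false
set_option linter.unusedVariables false

namespace Pool.Agent.AVF.BW

open Set Pool.Agent.AVC Pool.Agent.AVC.Ax

/-- equal types of all finite parts -/
private theorem WC1_pp {R : Type} [RSig R] {U : Ad R} {I : Type} {c d : I → U}
    (h : ∀ F : Finset I, app (R := R) U (fun i : F => d i) = app (R := R) U (fun i : F => c i))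
    {A : Type} [Finite A] (f : A → I) (φ : PP R A) : ASat φ U (d ∘ f) ↔ ASat φ U (c ∘ f) := by
  classical
  have _ := Fintype.ofFinite A
  let F : Finset I := Finset.univ.image f
  let f' : A → F := fun a => ⟨f a, Finset.mem_image_of_mem f (Finset.mem_univ a)⟩
  have h1 : ren f' φ ∈ app (R := R) U (fun i : F => d i) ↔
      ren f' φ ∈ app (R := R) U (fun i : F => c i) := by rw [h F]
  have h2 : ∀ x : I → U, ren f' φ ∈ app (R := R) U (fun i : F => x i) ↔ ASat φ U (x ∘ f) := by
    intro x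
    exact asat_ren f' φ _
  rw [h2, h2] at h1
  exact h1

private theorem WC1_hom {R : Type} [RSig R] {U : Ad R} {I : Type} {c d : I → U}
    (h : ∀ F : Finset I, app (R := R) U (fun i : F => d i) = app (R := R) U (fun i : F => c i))
    {A : Type} [Finite A] (f : A → I) (φ : PP R A) : Sat φ U (d ∘ f) ↔ Sat φ U (c ∘ f) := by
  rw [← asat_hom, ← asat_hom]
  exact WC1_pp h f (hom φ)

theorem thm_WC1 (hGS : St_WGS) (hTL : St_WTL) (hPU : St_WPU) (hIX : St_WIX) (hLB : St_WLB) :
    St_WC1 := by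
  classical
  intro R _ _ U hU hA hF α ι _ _ E V W hC hVW hFi
  obtain ⟨M0, hM0, -⟩ := hC.2.1 0
  have hex : ∃ M : Submodule R U, KE U E M := ⟨M0, hM0⟩
  obtain ⟨e0, he0⟩ := hM0.2
  let e : α → U := fun i => (e0 i : U)
  have he : ARe E U e := he0
  obtain ⟨y, z, hy, hz, hyz⟩ := hGS R U hU α ι e V W hVW
  let c : ∀ S : Set ℕ, (α ⊕ (ι ⊕ ((i : S) × Fin (W i.1).1))) → U := fun S =>
    Sum.elim e (Sum.elim y (fun p => z p.1.1 p.2))
  choose M hM c' hc' hgen using fun S : Set ℕ =>
    hTL R U hU (α ⊕ (ι ⊕ ((i : S) × Fin (W i.1).1))) (c S)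
  -- the models contain a solution of `E`
  have hKE : ∀ S : Set ℕ, KE U E (M S) := by
    intro S
    refine ⟨hM S, fun i => c' S (Sum.inl i), fun φ hφ => ?_⟩
    exact (WC1_pp (c := c S) (d := fun i => (c' S i : U)) (hc' S) (Sum.inl : α → _) φ).2 (he φ hφ)
  -- the tuple satisfies `W k` for `k ∈ S`
  have key1 : ∀ (S : Set ℕ) (k : ℕ), k ∈ S →
      Sat1 (W k) (M S) (fun i => c' S (Sum.inr (Sum.inl i))) := by
    intro S k hk
    refine ⟨fun j => c' S (Sum.inr (Sum.inr ⟨⟨k, hk⟩, j⟩)), fun φ hφ => ?_⟩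
    refine (hPU R U hU (M S) (hM S) _ φ _).2.2 ?_
    let f : ι ⊕ Fin (W k).1 → α ⊕ (ι ⊕ ((i : S) × Fin (W i.1).1)) :=
      Sum.elim (fun i => Sum.inr (Sum.inl i)) (fun j => Sum.inr (Sum.inr ⟨⟨k, hk⟩, j⟩))
    have h1 := (WC1_hom (c := c S) (d := fun i => (c' S i : U)) (hc' S) f φ).2 (by
      have h2 := hz k φ hφ
      have h3 : c S ∘ f = Sum.elim y (z k) := by
        funext i
        rcases i with i | i <;> rfl
      rw [h3]
      exact h2)
    have h4 : (fun i => ((Sum.elim (fun i => c' S (Sum.inr (Sum.inl i)))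
        (fun j => c' S (Sum.inr (Sum.inr ⟨⟨k, hk⟩, j⟩))) i : M S) : U)) =
        (fun i => (c' S i : U)) ∘ f := by
      funext i
      rcases i with i | i <;> rfl
    rw [h4]
    exact h1
  have key2 : ∀ (S : Set ℕ) (k : ℕ), k ∉ S →
      ¬ Sat1 (W k) (M S) (fun i => c' S (Sum.inr (Sum.inl i))) := by
    rintro S k hk ⟨t, ht⟩
    have _ := Fintype.ofFinite ι
    obtain ⟨F, hF0, θ, hθ⟩ := hgen S (W k).1 t
      (Finset.univ.image fun i : ι => Sum.inr (Sum.inl i))
    have hinl : ∀ i : ι, (Sum.inr (Sum.inl i) : α ⊕ (ι ⊕ ((i : S) × Fin (W i.1).1))) ∈ F :=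
      fun i => hF0 (Finset.mem_image_of_mem _ (Finset.mem_univ i))
    let A : Finset ℕ := F.biUnion (fun p => Sum.elim (fun _ => ∅)
      (Sum.elim (fun _ => ∅) (fun q => {q.1.1})) p)
    have hAS : ∀ i ∈ A, i ∈ S := by
      intro i hi
      obtain ⟨p, -, hp⟩ := Finset.mem_biUnion.1 hi
      rcases p with p | p | p
      · exact absurd hp (Finset.notMem_empty i)
      · exact absurd hp (Finset.notMem_empty i)
      · rw [Sum.elim_inr, Sum.elim_inr, Finset.mem_singleton] at hp
        rw [hp]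
        exact p.1.2
    have hmA : ∀ q : (i : S) × Fin (W i.1).1, Sum.inr (Sum.inr q) ∈ F → q.1.1 ∈ A := by
      intro q hq
      exact Finset.mem_biUnion.2 ⟨Sum.inr (Sum.inr q), hq, Finset.mem_singleton_self _⟩
    have hkA : k ∉ A := fun h => hk (hAS k h)
    -- the part of a tuple of the long type
    let g0 : F → α ⊕ YZ ι W A := fun p => match p with
      | ⟨Sum.inl i, _⟩ => Sum.inl i
      | ⟨Sum.inr (Sum.inl i), _⟩ => Sum.inr (Sum.inl i)
      | ⟨Sum.inr (Sum.inr q), h⟩ => Sum.inr (Sum.inr ⟨⟨q.1.1, hmA q h⟩, q.2⟩)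
    have hg0 : (fun i : F => c S i) = Sum.elim e (yzt (R := R) A y z) ∘ g0 := by
      funext p
      obtain ⟨p, hp⟩ := p
      rcases p with p | p | p <;> rfl
    obtain ⟨χ, hχa, hχh⟩ := (isAP_sat (R := R) θ).ex
    have hIX' := hIX R U hU α ι E V W hC A k hkA (afib (R := R) U e (yzt (R := R) A y z)) (hyz A)
      (by
      intro M' hM' v hv
      have h1 : Re (app (R := R) U (fun i : F => (c' S i : U))) U
          (Sum.elim (0 : α → U) (fun i => (v i : U)) ∘ g0) := by
        rw [hc' S F, hg0]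
        exact re_app_comp g0 (re_afib.1 hv)
      have e1 : (fun i => ((Sum.elim (0 : α → M') v (g0 i) : M') : U)) =
          Sum.elim (0 : α → U) (fun i => (v i : U)) ∘ g0 := by
        funext i
        show ((Sum.elim (0 : α → M') v (g0 i) : M') : U) =
          Sum.elim (0 : α → U) (fun i => (v i : U)) (g0 i)
        rcases g0 i with j | j <;> rfl
      have h2 : Sat χ U (Sum.elim (0 : α → U) (fun i => (v i : U)) ∘ g0) := by
        refine h1 χ ?_
        exact (hχa U _).1 ⟨fun j => (t j : U), hθ.1⟩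
      rw [← e1] at h2
      have h3 : Sat χ M' (fun i => Sum.elim (0 : α → M') v (g0 i)) :=
        (hPU R U hU M' hM'.1 F χ _).2.2 h2
      obtain ⟨t', ht'⟩ := (hχh M' _).2 h3
      have h4 := (hPU R U hU M' hM'.1 _ θ _).2.1 ht'
      have h5 : (fun i => ((Sum.elim (fun i => Sum.elim (0 : α → M') v (g0 i)) t' i : M') : U)) =
          Sum.elim (Sum.elim (0 : α → U) (fun i => (v i : U)) ∘ g0) (fun j => (t' j : U)) := by
        rw [← e1]
        funext i
        rcases i with i | i <;> rfl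
      rw [h5] at h4
      have h6 := hθ.re h1 h4
      refine ⟨t', fun φ hφ => ?_⟩
      refine (hPU R U hU M' hM'.1 _ φ _).2.2 ?_
      let g : ι ⊕ Fin (W k).1 → F ⊕ Fin (W k).1 :=
        Sum.map (fun i => ⟨Sum.inr (Sum.inl i), hinl i⟩) id
      have h7 : Sat φ U (Sum.elim (fun i : F => (c' S i : U)) (fun j => (t j : U)) ∘ g) := by
        have h8 := (hPU R U hU (M S) (hM S) _ φ _).2.1 (ht φ hφ)
        have h9 : (fun i => ((Sum.elim (fun i => c' S (Sum.inr (Sum.inl i))) t i : M S) : U)) =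
            Sum.elim (fun i : F => (c' S i : U)) (fun j => (t j : U)) ∘ g := by
          funext i
          rcases i with i | i <;> rfl
        rw [h9] at h8
        exact h8
      have h8 := re_app_sat (re_app_comp g h6) h7
      have h9 : (fun i => ((Sum.elim (v ∘ Sum.inl) t' i : M') : U)) =
          Sum.elim (Sum.elim (0 : α → U) (fun i => (v i : U)) ∘ g0) (fun j => (t' j : U)) ∘ g := by
        funext i
        rcases i with i | i <;> rfl
      rw [h9]
      exact h8)
    obtain ⟨N, hN⟩ := hIX'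
    obtain ⟨ψ, hψ⟩ := hLB R U hU hA α ι E hex V (W k) N hN
    exact hFi k ψ hψ
  -- too many level-one types
  have hcount := hF.few1 ι
  have hinj : Function.Injective (fun S : Set ℕ => atp1 (R := R) (M S)
      (fun i => c' S (Sum.inr (Sum.inl i)))) := by
    intro S T hST
    have h1 : ∀ S' : Set ℕ, ∀ k, hom1 (W k) ∈
        atp1 (R := R) (M S') (fun i => c' S' (Sum.inr (Sum.inl i))) ↔ k ∈ S' :=
      fun S' k => ⟨fun h => by
        by_contra hk
        exact key2 S' k hk ((asat1_hom1 _ _).1 h), fun h => (asat1_hom1 _ _).2 (key1 S' k h)⟩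
    ext k
    rw [← h1 S, ← h1 T]
    have h2 : atp1 (R := R) (M S) (fun i => c' S (Sum.inr (Sum.inl i))) =
        atp1 (R := R) (M T) (fun i => c' T (Sum.inr (Sum.inl i))) := hST
    rw [h2]
  have hmem : ∀ S : Set ℕ, atp1 (R := R) (M S) (fun i => c' S (Sum.inr (Sum.inl i))) ∈
      {τ : Set (L1 R ι) | ∃ M : Ad R, InK U M ∧ ∃ x : ι → M, atp1 M x = τ} := by
    intro S
    exact ⟨⟨M S⟩, ⟨M S, hM S, ⟨AIe.refl R (M S)⟩⟩, _, rfl⟩
  have _ := hcount.to_subtype
  obtain ⟨g, hg⟩ := exists_injective_nat {τ : Set (L1 R ι) | ∃ M : Ad R, InK U M ∧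
    ∃ x : ι → M, atp1 M x = τ}
  refine Function.cantor_injective (fun S : Set ℕ => g ⟨_, hmem S⟩) ?_
  intro S T hST
  exact hinj (congrArg Subtype.val (hg hST))

end Pool.Agent.AVF.BW
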