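import Pool.Agent.AVF.StW

/-!
# AVF, block W, module WCR: Chinese remainders (helper57)
-/

set_option autoImplicit false
set_option linter.unusedSectionVars false
set_option linter.unusedVariables false

namespace Pool.Agent.AVF.BW

open Set Pool.Agent.AVC Pool.Agent.AVC.Ax

/-- [WCR] -/
theorem thm_WCR : St_WCR := by
  intro G _ H hH A c
  have h : ∀ n : ℕ, ∃ x, ∀ i < n, x - c i ∈ H i := by
    intro n
    induction n with
    | zero => exact ⟨0, fun i hi => absurd hi (Nat.not_lt_zero i)⟩
    | succ n ih =>
      obtain ⟨x', hx'⟩ := ih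
      obtain ⟨w, hw, hv⟩ := hH n (c n - x')
      refine ⟨x' + (c n - x' - w), fun i hi => ?_⟩
      rcases Nat.lt_succ_iff_lt_or_eq.mp hi with hi | rfl
      · have e : x' + (c n - x' - w) - c i = (x' - c i) + (c n - x' - w) := by abel
        rw [e]
        exact (H i).add_mem (hx' i hi) (hv i hi)
      · have e : x' + (c i - x' - w) - c i = -w := by abel
        rw [e]
        exact (H i).neg_mem hw
  obtain ⟨x, hx⟩ := h (A.sup id + 1)
  exact ⟨x, fun i hi => hx i (Nat.lt_succ_of_le (Finset.le_sup (f := id) hi))⟩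

end Pool.Agent.AVF.BW
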