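import Pool.Agent.AVF.W.WJN

/-!
# AVF, WGV: generic tuples over a finite tuple (helper79, after VMF/WGV)
-/

set_option autoImplicit false
set_option linter.unusedSectionVars false
set_option linter.unusedVariables false

namespace Pool.Agent.AVF.BW

open Set Pool.Agent.AVC Pool.Agent.AVC.Ax

/-- renaming along a bijection -/
theorem re_app_bij {R : Type} [RSig R] {U : Type} [AddCommGroup U] [AfS R U]
    {κ κ' : Type} (e : κ → κ') (e' : κ' → κ) (h : ∀ i, e (e' i) = i) (g x : κ' → U) :
    Re (app (R := R) U (g ∘ e)) U (x ∘ e) ↔ Re (app (R := R) U g) U x := by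
  constructor
  · intro h1
    have h2 := re_app_comp e' h1
    have h3 : ∀ y : κ' → U, (y ∘ e) ∘ e' = y := fun y => funext fun i => congrArg y (h i)
    rwa [h3, h3] at h2
  · exact fun h1 => re_app_comp e h1

/-- `q^1` is contained in `q` -/
theorem re_of_one {R : Type} [RSig R] {U : Type} [AddCommGroup U] [MoS R U] {ι : Type}
    (V : Set (PP R ι)) (x : ι → U) (h : Re (one U V) U x) : Re V U x := by
  intro φ hφ
  refine h φ ⟨?_, fun χ hχ x hx => ?_⟩
  · have h1 : grp U V ≤ grp U {φ} := by
      intro y hy χ hχ
      rw [mem_singleton_iff.mp hχ]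
      exact hy φ hφ
    show (grp U {φ}).relIndex (grp U V) ≠ 0
    rw [AddSubgroup.relIndex_eq_one.mpr h1]
    exact one_ne_zero
  · intro ψ hψ
    rw [mem_singleton_iff.mp hψ]
    exact hχ x hx φ hφ


/-- the first blocks -/
private def WGV_e (α : Type) (m : ℕ) (ι : Type) : (α ⊕ (Fin m × ι)) ⊕ ι → α ⊕ (Fin (m + 1) × ι) :=
  Sum.elim (Sum.elim Sum.inl (fun p => Sum.inr (p.1.castSucc, p.2))) (fun i => Sum.inr (Fin.last m, i))

private theorem WGV_inv (α : Type) (m : ℕ) (ι : Type) :
    ∃ e' : α ⊕ (Fin (m + 1) × ι) → (α ⊕ (Fin m × ι)) ⊕ ι, ∀ i, WGV_e α m ι (e' i) = i := by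
  refine ⟨Sum.elim (fun a => Sum.inl (Sum.inl a)) fun p =>
    if h : p.1.val < m then Sum.inl (Sum.inr (⟨p.1.val, h⟩, p.2)) else Sum.inr p.2, ?_⟩
  rintro (a | ⟨j, i⟩)
  · rfl
  show WGV_e α m ι (if h : j.val < m then Sum.inl (Sum.inr (⟨j.val, h⟩, i)) else Sum.inr i) =
    Sum.inr (j, i)
  by_cases h : j.val < m
  · rw [dif_pos h]
    rfl
  · rw [dif_neg h]
    have h1 : j = Fin.last m := by
      apply Fin.ext
      have h2 := j.isLt
      show j.val = m
      omega
    rw [h1]
    rfl

theorem thm_WGV (hG4 : St_WG4) (hPJ : St_WPJ) : St_WGV := by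
  intro R _ _ U hU hA α ι _ _ e V m
  induction m with
  | zero =>
    intro z hz
    refine ⟨z, hz, fun j => j.elim0, ?_⟩
    have h1 : grp U (pw V 0) ≤ grp U (afib (R := R) U e (fun p : Fin 0 × ι => z p.1 p.2)) := by
      intro x hx
      have h2 : x = 0 := funext fun p => p.1.elim0
      rw [h2]
      exact AddSubgroup.zero_mem _
    show (grp U _).relIndex (grp U _) ≠ 0
    rw [AddSubgroup.relIndex_eq_one.mpr h1]
    exact one_ne_zero
  | succ m ih =>
    intro z hz
    obtain ⟨g, hg1, hg2, hg3⟩ := ih (fun j => z j.castSucc) (fun j => hz j.castSucc)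
    let g' : α ⊕ (Fin m × ι) → U := Sum.elim e (fun p => g p.1 p.2)
    obtain ⟨y, hy1, hy2⟩ := hG4 R U hU (α ⊕ (Fin m × ι)) ι g' (one U V) (z (Fin.last m))
    have hy3 : Re V U y := by
      have h1 := (re_of_one V _ hy1).add (hz (Fin.last m))
      rwa [sub_add_cancel] at h1
    have hy4 : (grp U (afib (R := R) U g' y)).relIndex (grp U V) ≠ 0 :=
      AddSubgroup.relIndex_ne_zero_trans hy2 (hA ι V)
    have hgV : ∀ j, Re V U ((Fin.snoc g y : Fin (m + 1) → ι → U) j) := by
      intro j
      refine Fin.lastCases ?_ (fun j => ?_) j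
      · rw [Fin.snoc_last]
        exact hy3
      · rw [Fin.snoc_castSucc]
        exact hg1 j
    refine ⟨(Fin.snoc g y : Fin (m + 1) → ι → U), hgV, ?_, ?_⟩
    · intro j
      refine Fin.lastCases ?_ (fun j => ?_) j
      · rw [Fin.snoc_last]
        exact hy1
      · rw [Fin.snoc_castSucc]
        exact hg2 j
    · obtain ⟨e', he'⟩ := WGV_inv α m ι
      let t : Fin (m + 1) × ι → U := fun p => (Fin.snoc g y : Fin (m + 1) → ι → U) p.1 p.2
      have hte : (Sum.elim e t : α ⊕ (Fin (m + 1) × ι) → U) ∘ WGV_e α m ι = Sum.elim g' y := by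
        funext s
        rcases s with (a | p) | i
        · rfl
        · show (Fin.snoc g y : Fin (m + 1) → ι → U) (p.1.castSucc) p.2 = g p.1 p.2
          rw [Fin.snoc_castSucc]
        · show (Fin.snoc g y : Fin (m + 1) → ι → U) (Fin.last m) i = y i
          rw [Fin.snoc_last]
      have hkey : ∀ x : Fin (m + 1) × ι → U, Re (afib (R := R) U e t) U x ↔
          Re (app (R := R) U (Sum.elim g' y)) U
            ((Sum.elim 0 x : α ⊕ (Fin (m + 1) × ι) → U) ∘ WGV_e α m ι) := by
        intro x
        rw [← hte, re_app_bij (WGV_e α m ι) e' he']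
        exact re_afib
      let p : (Fin (m + 1) × ι → U) →+ (Fin m × ι → U) :=
        { toFun := fun x s => x (s.1.castSucc, s.2)
          map_zero' := rfl
          map_add' := fun x y => rfl }
      let q : (ι → U) →+ (Fin (m + 1) × ι → U) :=
        { toFun := fun v s => if s.1 = Fin.last m then v s.2 else 0
          map_zero' := by
            funext s
            show (if s.1 = Fin.last m then (0 : U) else 0) = 0
            exact ite_self 0
          map_add' := by
            intro v w
            funext s
            show (if s.1 = Fin.last m then v s.2 + w s.2 else 0) =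
              (if s.1 = Fin.last m then v s.2 else 0) + if s.1 = Fin.last m then w s.2 else 0
            by_cases h : s.1 = Fin.last m
            · rw [if_pos h, if_pos h, if_pos h]
            · rw [if_neg h, if_neg h, if_neg h, add_zero] }
      have hinj : Function.Injective (WGV_e α m ι) := by
        rintro ((a | ⟨a, i⟩) | i) ((b | ⟨b, j⟩) | j) h
        · exact congrArg (fun c => Sum.inl (Sum.inl c)) (Sum.inl.inj h)
        · exact absurd h (by simp [WGV_e])
        · exact absurd h (by simp [WGV_e])
        · exact absurd h (by simp [WGV_e])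
        · have h3 : (a.castSucc, i) = (b.castSucc, j) := Sum.inr.inj h
          rw [Prod.mk.injEq] at h3
          rw [Fin.castSucc_injective m h3.1, h3.2]
        · have h3 : (a.castSucc, i) = (Fin.last m, j) := Sum.inr.inj h
          rw [Prod.mk.injEq] at h3
          exact absurd h3.1 (Fin.castSucc_lt_last a).ne
        · exact absurd h (by simp [WGV_e])
        · have h3 : (Fin.last m, i) = (b.castSucc, j) := Sum.inr.inj h
          rw [Prod.mk.injEq] at h3
          exact absurd h3.1.symm (Fin.castSucc_lt_last b).ne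
        · have h3 : (Fin.last m, i) = (Fin.last m, j) := Sum.inr.inj h
          rw [Prod.mk.injEq] at h3
          rw [h3.2]
      refine idx_ker p q _ _ (grp U (pw V m))
        (grp U (afib (R := R) U e (fun p : Fin m × ι => g p.1 p.2))) (grp U V) ?_ ?_ hg3 ?_ ?_ ?_
      · intro x hx
        show Re (pw V (m + 1)) U x
        have h1 : Re (afib (R := R) U e t) U x := hx
        have h2 := re_app_comp Sum.inr (re_afib.1 h1)
        exact re_app_re h2 ((re_pw V (m + 1) t).mpr hgV)
      · intro x hx
        show Re (pw V m) U _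
        rw [re_pw]
        intro j
        exact (re_pw V (m + 1) x).mp hx j.castSucc
      · intro x hx
        obtain ⟨v, hv⟩ := (hPJ R U hU (α ⊕ (Fin m × ι)) ι g' y (Sum.elim 0 x)).2 (re_afib.1 hx)
        let x0 : α ⊕ (Fin m × ι) → U := Sum.elim 0 x
        let z0 : (α ⊕ (Fin m × ι)) ⊕ ι → U := Sum.elim x0 v
        let w : Fin (m + 1) × ι → U := fun s => z0 (e' (Sum.inr s))
        have hw : (Sum.elim 0 w : α ⊕ (Fin (m + 1) × ι) → U) ∘ WGV_e α m ι = z0 := by
          funext s
          have h1 : e' (WGV_e α m ι s) = s := hinj (he' (WGV_e α m ι s))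
          rcases s with (a | s) | i
          · rfl
          · show z0 (e' (WGV_e α m ι (Sum.inl (Sum.inr s)))) = _
            rw [h1]
          · show z0 (e' (WGV_e α m ι (Sum.inr i))) = _
            rw [h1]
        refine ⟨w, ?_, ?_⟩
        · show Re (afib (R := R) U e t) U w
          rw [hkey, hw]
          exact hv
        · funext s
          exact congrFun hw (Sum.inl (Sum.inr s))
      · intro h
        refine hy4 ?_
        have h8 : AddSubgroup.comap q (grp U (afib (R := R) U e t)) =
            grp U (afib (R := R) U g' y) := by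
          ext v
          show Re (afib (R := R) U e t) U (q v) ↔ Re (afib (R := R) U g' y) U v
          rw [hkey, re_afib]
          have h9 : (Sum.elim 0 (q v) : α ⊕ (Fin (m + 1) × ι) → U) ∘ WGV_e α m ι =
              Sum.elim (0 : α ⊕ (Fin m × ι) → U) v := by
            funext s
            rcases s with (a | a) | i
            · rfl
            · show (if a.1.castSucc = Fin.last m then v a.2 else 0) = 0
              rw [if_neg (Fin.castSucc_lt_last a.1).ne]
            · show (if Fin.last m = Fin.last m then v i else 0) = v i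
              rw [if_pos rfl]
          rw [h9]
        rw [← h8]
        exact h
      · intro x hx hpx
        refine ⟨fun i => x (Fin.last m, i), (re_pw V (m + 1) x).mp hx (Fin.last m), ?_⟩
        funext s
        show (if s.1 = Fin.last m then x (Fin.last m, s.2) else 0) = x s
        by_cases h : s.1 = Fin.last m
        · rw [if_pos h, ← h]
        · rw [if_neg h]
          obtain ⟨j, hj⟩ := Fin.exists_castSucc_eq.mpr h
          have h10 : x (j.castSucc, s.2) = 0 := congrFun hpx (j, s.2)
          rw [hj] at h10
          exact h10.symm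

end Pool.Agent.AVF.BW
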