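import Pool.Agent.AVF.StW

/-!
# AVF [WIN]: invariance (port of `VMF/WIN.lean`; helper52)
-/

set_option autoImplicit false

namespace Pool.Agent.AVF.BW

open Set Pool.Agent.AVC Pool.Agent.AVC.Ax

section

variable {R : Type} [RSig R]

/-- atomicity for tuples indexed by a finite type -/
private theorem WIN_at (U : Ad R) {κ : Type} (b : κ → U) (N : Submodule R U) (hN : AtOv U b N)
    {ι : Type} {l : ℕ} (e : ι ≃ Fin l) (c : ι → N) :
    ∃ θ : PP R (κ ⊕ ι), ASat θ U (Sum.elim b (fun j => (c j : U))) ∧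
      ∀ y : ι → U, Sat θ U (Sum.elim 0 y) →
        ∀ φ : PP R ι, Sat φ U (fun j => (c j : U)) → Sat φ U y := by
  obtain ⟨θ, hθ⟩ := hN.2 l (fun j => c (e.symm j))
  have h3 : ∀ (v : κ → U) (y : ι → U), (Sum.elim v y) ∘ (Sum.map id e.symm) =
      Sum.elim v (fun j => y (e.symm j)) := by
    intro v y
    funext j
    cases j <;> rfl
  refine ⟨ren (Sum.map id e.symm) θ, ?_, fun y hy φ hφ => ?_⟩
  · rw [asat_ren, h3]
    exact hθ.1
  rw [sat_ren, h3] at hy
  have h4 := hθ.re (Re.zero _) hy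
  have h5 : ∀ (v : κ → U) (z : Fin l → U),
      Sat (ren (fun i : ι => (Sum.inr (e i) : κ ⊕ Fin l)) φ) U (Sum.elim v z) ↔
        Sat φ U (fun i => z (e i)) := by
    intro v z
    rw [sat_ren]
    rfl
  have h6 : Sat (ren (fun i : ι => (Sum.inr (e i) : κ ⊕ Fin l)) φ) U
      (Sum.elim b (fun j => (c (e.symm j) : U))) := by
    rw [h5]
    have h7 : (fun i => (c (e.symm (e i)) : U)) = fun i => (c i : U) := by
      funext i
      rw [e.symm_apply_apply]
    rw [h7]
    exact hφ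
  have h8 := (h5 _ _).1 (re_app_sat h4 h6)
  have h9 : (fun i => y (e.symm (e i))) = y := by
    funext i
    rw [e.symm_apply_apply]
  rw [h9] at h8
  exact h8

/-- finite index is inherited by pullback and restriction -/
private theorem WIN_fin (U : Type) [AddCommGroup U] [MoS R U] {ι κ : Type} (V : Set (PP R ι))
    (ψ : PP R ι) (h : FIn U V {ψ}) (f : ι → κ) (χ : PP R κ)
    (hχ : ∀ y : κ → U, Sat χ U y → Re V U (y ∘ f)) : FIn U {χ} {ren f ψ} := by
  let g : (κ → U) →+ (ι → U) :=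
    { toFun := fun y => y ∘ f
      map_zero' := rfl
      map_add' := fun _ _ => rfl }
  have h1 : grp U ({ren f ψ} : Set (PP R κ)) = (grp U ({ψ} : Set (PP R ι))).comap g := by
    ext y
    rw [AddSubgroup.mem_comap, mem_grp, mem_grp]
    constructor
    · intro h2 φ hφ
      rw [mem_singleton_iff] at hφ
      rw [hφ]
      exact (sat_ren f ψ y).1 (h2 _ rfl)
    · intro h2 φ hφ
      rw [mem_singleton_iff] at hφ
      rw [hφ]
      exact (sat_ren f ψ y).2 (h2 _ rfl)
  unfold FIn at h ⊢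
  rw [h1, AddSubgroup.relIndex_comap]
  intro h3
  refine h (AddSubgroup.relIndex_eq_zero_of_le_right ?_ h3)
  rintro _ ⟨y, hy, rfl⟩
  exact hχ y (hy χ rfl)

end

theorem thm_WIN (hC5 : St_WC5) (hPU : St_WPU) : St_WIN := by
  intro R _ _ U hU κ _ b N hN hAt n V W ψ hWV hF γ hγ x w hw hxV hxψ
  obtain ⟨z, hz⟩ := hw
  let c : Fin n ⊕ Fin W.1 → N := Sum.elim w z
  obtain ⟨θ, hθ1, hθ2⟩ := WIN_at U b N hAt finSumFinEquiv c
  let cU : Fin n ⊕ Fin W.1 → U := fun j => (c j : U)
  -- the difference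
  let t : Fin n ⊕ Fin W.1 → U := fun j => γ (cU j) - cU j
  have hγθ : ASat θ U (Sum.elim b (fun j => γ (cU j))) := by
    have h1 := hθ1.map γ.prQ
    have h2 : (γ.hm ∘ Sum.elim b cU) = Sum.elim b (fun j => γ (cU j)) := by
      funext j
      cases j with
      | inl i => exact hγ i
      | inr i => rfl
    rw [← h2]
    exact h1
  have ht : Sat (zer θ) U t := by
    rw [sat_zer]
    have h1 := hγθ.sub hθ1
    have h2 : (Sum.elim b (fun j => γ (cU j)) - Sum.elim b (fun j => (c j : U)) :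
        κ ⊕ (Fin n ⊕ Fin W.1) → U) = Sum.elim (0 : κ → U) t := by
      funext j
      cases j with
      | inl i => exact sub_self _
      | inr i => rfl
    rw [h2] at h1
    exact h1
  -- the formula is contained in the type
  have hcV : Re V U (fun i => (w i : U)) := (hWV w ⟨z, hz⟩).map (Hm.subtype N)
  have hcW : Re W.2 U cU := hz.map (Hm.subtype N)
  have hχV : ∀ y : Fin n ⊕ Fin W.1 → U, Sat (zer θ) U y → Re V U (y ∘ Sum.inl) := by
    intro y hy φ hφ
    rw [sat_zer] at hy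
    have h1 := hθ2 y hy (ren Sum.inl φ) ((sat_ren _ _ _).2 (hcV φ hφ))
    exact (sat_ren _ _ _).1 h1
  have hχW : ∀ y : Fin n ⊕ Fin W.1 → U, Sat (zer θ) U y → Re W.2 U y := by
    intro y hy φ hφ
    rw [sat_zer] at hy
    exact hθ2 y hy φ (hcW φ hφ)
  have hFI : FIn U {zer θ} {ren Sum.inl ψ} := WIN_fin U V ψ hF.1 Sum.inl (zer θ) hχV
  obtain ⟨u, hu1, hu2⟩ := hC5 R U hU N hN (Fin n ⊕ Fin W.1) (zer θ) (ren Sum.inl ψ) t ht hFI
  rw [sat_ren] at hu2
  have huW : Re W.2 N u := fun φ hφ => (hPU R U hU N hN _ φ u).2.2 (hχW _ hu1 φ hφ)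
  have huW1 : Sat1 W N (fun i => u (Sum.inl i)) := by
    refine ⟨fun j => u (Sum.inr j), ?_⟩
    have h1 : Sum.elim (fun i => u (Sum.inl i)) (fun j => u (Sum.inr j)) = u := by
      funext j
      cases j <;> rfl
    rw [h1]
    exact huW
  refine ⟨w + fun i => u (Sum.inl i), Sat1.add ⟨z, hz⟩ huW1, ?_⟩
  have e1 : ((fun i => γ (x i)) - fun i => (((w + fun i => u (Sum.inl i)) i : N) : U)) =
      (γ.hm ∘ (x - fun i => (w i : U))) +
        ((t ∘ Sum.inl) - fun i => (u (Sum.inl i) : U)) := by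
    funext i
    simp only [Pi.sub_apply, Pi.add_apply, Function.comp_apply, Submodule.coe_add, map_sub,
      AIe.hm_apply, t, cU, c, Sum.elim_inl]
    abel
  rw [e1]
  constructor
  · refine (hxV.map γ.hm).add ?_
    exact (hχV t ht).sub (hχV _ hu1)
  · refine (hxψ.map γ.hm).add ?_
    have h1 := hu2.neg
    have h2 : -(((fun i => (u i : U)) - t) ∘ Sum.inl) =
        (t ∘ Sum.inl) - fun i => (u (Sum.inl i) : U) := by
      funext i
      simp only [Pi.neg_apply, Pi.sub_apply, Function.comp_apply, neg_sub]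
    rw [h2] at h1
    exact h1

end Pool.Agent.AVF.BW
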