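import Pool.Agent.AVF.StW

/-!
# AVF, module WIS: saturation for invariant clopen sets (port of VMF/WIS.lean, helper22)
-/

set_option autoImplicit false
set_option linter.unusedSectionVars false
set_option linter.unusedVariables false

namespace Pool.Agent.AVF.BW

open Set Pool.Agent.AVC Pool.Agent.AVC.Ax

/-- realisation of the limit type of a sequence along an ultrafilter, over a finite tuple -/
private theorem WIS_lim {R : Type} [RSig R] [Countable R] {U : Ad R}
    (hU : MonA R U) {κ ι : Type} [Finite κ] [Finite ι] (b : κ → U) (x : ℕ → ι → U)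
    (F : Ultrafilter ℕ) : ∃ y : ι → U, ∀ φ : PP R (κ ⊕ ι),
      ASat φ U (Sum.elim b y) ↔ ∀ᶠ j in (F : Filter ℕ), ASat φ U (Sum.elim b (x j)) := by
  obtain ⟨y, h1, h2⟩ := hU.sat κ ι b
    {φ | ∀ᶠ j in (F : Filter ℕ), ASat φ U (Sum.elim b (x j))}
    {φ | ¬ ∀ᶠ j in (F : Filter ℕ), ASat φ U (Sum.elim b (x j))} (fun s t hs ht => by
    have h3 : ∀ᶠ j in (F : Filter ℕ), (∀ φ ∈ s, ASat φ U (Sum.elim b (x j))) ∧
        ∀ φ ∈ t, ¬ ASat φ U (Sum.elim b (x j)) := by
      refine Filter.Eventually.and ?_ ?_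
      · rw [Finset.eventually_all]
        exact fun φ hφ => hs hφ
      · rw [Finset.eventually_all]
        exact fun φ hφ => Ultrafilter.eventually_not.2 (ht hφ)
    obtain ⟨j, hj⟩ := h3.exists
    exact ⟨x j, hj⟩)
  refine ⟨y, fun φ => ⟨fun h => ?_, fun h => h1 φ h⟩⟩
  by_contra h3
  exact h2 φ h3 h

theorem thm_WIS (hHO : St_WHO) : St_WIS := by
  classical
  intro R _ _ U hU κ ι _ _ b V ψ Z hFI hne hanti hV hsat hinv
  choose x hx using hne
  have hmono : Antitone Z := antitone_nat_of_succ_le hanti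
  have hxm : ∀ m j, m ≤ j → x j ∈ Z m := fun m j h => hmono h (hx j)
  have hxV : ∀ j, Re V U (x j) := fun j => hV j _ (hx j)
  obtain ⟨y, hy⟩ := WIS_lim hU b x (Filter.hyperfilter ℕ)
  refine ⟨y, fun m => ?_⟩
  have hge : {j | m ≤ j} ∈ Filter.hyperfilter ℕ := by
    refine Filter.hyperfilter_le_cofinite ?_
    rw [Filter.mem_cofinite]
    refine (Set.finite_lt_nat m).subset fun j hj => ?_
    simpa using hj
  -- a coset of `V ∧ ψ m`
  obtain ⟨r, hr⟩ : ∃ r : ι → U, ∀ᶠ j in (Filter.hyperfilter ℕ : Filter ℕ),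
      x j - r ∈ grp U ({ψ m} : Set (PP R ι)) := by
    let Q := ↥(grp U V) ⧸ (grp U ({ψ m} : Set (PP R ι))).addSubgroupOf (grp U V)
    have hQ : Finite Q := Nat.finite_of_card_ne_zero (hFI m)
    let f : ℕ → Q := fun j => QuotientAddGroup.mk ⟨x j, hxV j⟩
    obtain ⟨c, hc⟩ := Ultrafilter.eq_pure_of_finite ((Filter.hyperfilter ℕ).map f)
    have h1 : ({c} : Set Q) ∈ (Filter.hyperfilter ℕ).map f := by
      rw [hc]
      exact Ultrafilter.mem_pure.2 rfl
    obtain ⟨r, rfl⟩ := QuotientAddGroup.mk_surjective c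
    refine ⟨r.1, Filter.mem_of_superset (Ultrafilter.mem_map.1 h1) fun j hj => ?_⟩
    have h2 : (QuotientAddGroup.mk (⟨x j, hxV j⟩ : ↥(grp U V)) : Q) = QuotientAddGroup.mk r := hj
    have h3 : -(⟨x j, hxV j⟩ : ↥(grp U V)) + r ∈
        (grp U ({ψ m} : Set (PP R ι))).addSubgroupOf (grp U V) := QuotientAddGroup.eq.1 h2
    have h4 : -(x j) + r.1 ∈ grp U ({ψ m} : Set (PP R ι)) := h3
    rw [← AddSubgroup.neg_mem_iff] at h4
    have h5 : -(-(x j) + r.1) = x j - r.1 := by abel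
    rw [h5] at h4
    exact h4
  -- the limit over `(b, r)`
  obtain ⟨z, hz⟩ := WIS_lim hU (Sum.elim b r) x (Filter.hyperfilter ℕ)
  have hzb : ∀ φ : PP R (κ ⊕ ι), ASat φ U (Sum.elim b z) ↔
      ∀ᶠ j in (Filter.hyperfilter ℕ : Filter ℕ), ASat φ U (Sum.elim b (x j)) := by
    intro φ
    let g : κ ⊕ ι → (κ ⊕ ι) ⊕ ι := Sum.elim (fun i => Sum.inl (Sum.inl i)) Sum.inr
    have h1 : ∀ w : ι → U, ASat (ren g φ) U (Sum.elim (Sum.elim b r) w) ↔
        ASat φ U (Sum.elim b w) := by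
      intro w
      have h3 : (Sum.elim (Sum.elim b r) w) ∘ g = Sum.elim b w := by
        funext i
        cases i <;> rfl
      rw [asat_ren, h3]
    rw [← h1, hz]
    exact Filter.eventually_congr (Filter.Eventually.of_forall fun j => h1 (x j))
  -- homogeneous formulas
  have hzh : ∀ φ : PP R ((κ ⊕ ι) ⊕ ι), Sat φ U (Sum.elim (Sum.elim b r) z) ↔
      ∀ᶠ j in (Filter.hyperfilter ℕ : Filter ℕ), Sat φ U (Sum.elim (Sum.elim b r) (x j)) := by
    intro φ
    rw [← asat_hom, hz]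
    exact Filter.eventually_congr (Filter.Eventually.of_forall fun j => asat_hom φ _)
  obtain ⟨hzV, hzr⟩ : Re V U z ∧ Sat (ψ m) U (z - r) := by
    constructor
    · intro φ hφ
      have h1 : ∀ w : ι → U, Sat (ren (Sum.inr : ι → (κ ⊕ ι) ⊕ ι) φ) U
          (Sum.elim (Sum.elim b r) w) ↔ Sat φ U w := fun w => sat_ren _ _ _
      rw [← h1, hzh]
      exact Filter.Eventually.of_forall fun j => (h1 (x j)).2 (hxV j φ hφ)
    · let f : ι → (((κ ⊕ ι) ⊕ ι) →₀ R) :=
        fun i => Finsupp.single (Sum.inr i) 1 - Finsupp.single (Sum.inl (Sum.inr i)) 1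
      obtain ⟨φ', hφ'⟩ := IsPP.subst (R := R)
        (F := fun M _ _ (x : ι → M) => Sat (ψ m) M x) (isPP_sat (ψ m)) f
      have h1 : ∀ w : ι → U, Sat φ' U (Sum.elim (Sum.elim b r) w) ↔ Sat (ψ m) U (w - r) := by
        intro w
        have h2 := hφ' U (Sum.elim (Sum.elim b r) w)
        beta_reduce at h2
        have h3 : (fun i => Finsupp.linearCombination R (Sum.elim (Sum.elim b r) w) (f i)) =
            w - r := by
          funext i
          simp only [f, map_sub, Finsupp.linearCombination_single, one_smul, Sum.elim_inr,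
            Sum.elim_inl, Pi.sub_apply]
        rw [h3] at h2
        exact h2.symm
      rw [← h1, hzh]
      refine hr.mono fun j hj => (h1 (x j)).2 ?_
      exact hj (ψ m) rfl
  obtain ⟨j, hj1, hj2⟩ := (Filter.hyperfilter ℕ).nonempty_of_mem (Filter.inter_mem hge hr)
  have hzm : z ∈ Z m := by
    have h1 : z - x j = (z - r) - (x j - r) := by abel
    refine hsat m (x j) (hxm m j hj1) z (hzV.sub (hxV j)) ?_
    rw [h1]
    exact hzr.sub (hj2 (ψ m) rfl)
  obtain ⟨γ, hγ⟩ := hHO R U hU (κ ⊕ ι) (Sum.elim b z) (Sum.elim b y) (by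
    ext φ
    exact (hzb φ).trans (hy φ).symm)
  have h1 := hinv m z hzm γ fun i => hγ (Sum.inl i)
  have h2 : (fun i => γ (z i)) = y := by
    funext i
    exact hγ (Sum.inr i)
  rwa [h2] at h1

end Pool.Agent.AVF.BW
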