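import Pool.Agent.AVF.StW
import Pool.Agent.AVC.Api3

/-!
# AVF, block W, module WIX: bounded indices (port of `VMF/WIX.lean`, helper42)
-/

set_option autoImplicit false
set_option linter.unusedSectionVars false
set_option linter.unusedVariables false

namespace Pool.Agent.AVF.BW

open Set Pool.Agent.AVC Pool.Agent.AVC.Ax

/-- the pigeonhole principle for cosets -/
private theorem WIX_pig {G : Type} [AddCommGroup G] {H K : AddSubgroup G}
    (h : H.relIndex K ≠ 0) (v : Fin (H.relIndex K + 1) → G) (hv : ∀ j, v j ∈ K) :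
    ∃ j l, j ≠ l ∧ v j - v l ∈ H := by
  have hfin : Finite (K ⧸ H.addSubgroupOf K) := Nat.finite_of_card_ne_zero h
  let f : Fin (H.relIndex K + 1) → K ⧸ H.addSubgroupOf K :=
    fun j => QuotientAddGroup.mk ⟨v j, hv j⟩
  have hni : ¬ Function.Injective f := by
    intro hf
    have h1 := Nat.card_le_card_of_injective f hf
    rw [Nat.card_eq_fintype_card, Fintype.card_fin] at h1
    have h2 : Nat.card (K ⧸ H.addSubgroupOf K) = H.relIndex K := rfl
    omega
  unfold Function.Injective at hni
  push Not at hni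
  obtain ⟨j, l, hjl, hne⟩ := hni
  refine ⟨l, j, hne.symm, ?_⟩
  have h1 := QuotientAddGroup.eq.1 hjl
  have h2 : -v j + v l ∈ H := AddSubgroup.mem_addSubgroupOf.1 h1
  rw [sub_eq_neg_add]
  exact h2

/-- [WIX] (St_WPU is not needed) -/
theorem thm_WIX (_hPU : St_WPU) : St_WIX := by
  intro R _ _ U hU α ι _ _ E V W hW A k hk P hP hPk
  refine ⟨(grp U P).relIndex (grp U (yz V W A)), fun M hM g hg => ?_⟩
  have hx : ∀ j, ∃ x : ι → M, Re V M x ∧ (∀ l ∈ A, Sat1 (W l) M x) ∧ Sat1 (W k) M (x - g j) := by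
    intro j
    obtain ⟨x, hx, hx'⟩ := hW.2.2 M hM (insert k A) (fun l => if l = k then g j else 0) (by
      intro l
      by_cases h : l = k
      · simp only [if_pos h]
        exact hg j
      · simp only [if_neg h]
        exact Re.zero V)
    refine ⟨x, hx, fun l hl => ?_, ?_⟩
    · have h1 := hx' l (Finset.mem_insert_of_mem hl)
      have h2 : l ≠ k := fun h => hk (h ▸ hl)
      simp only [if_neg h2, sub_zero] at h1
      exact h1
    · have h1 := hx' k (Finset.mem_insert_self k A)
      simp only [if_true] at h1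
      exact h1
  choose x hxV hxA hxk using hx
  have ht : ∀ j (l : A), ∃ t : Fin (W l.1).1 → M, Re (W l.1).2 M (Sum.elim (x j) t) :=
    fun j l => hxA j l.1 l.2
  choose t ht using ht
  let v : Fin ((grp U P).relIndex (grp U (yz V W A)) + 1) → YZ ι W A → M :=
    fun j => Sum.elim (x j) (fun p => t j p.1 p.2)
  have hv : ∀ j, Re (yz V W A) M (v j) := by
    intro j
    rw [re_yz]
    exact ⟨hxV j, fun i => ht j i⟩
  have hvU : ∀ j, (fun i => ((v j i : M) : U)) ∈ grp U (yz V W A) := fun j =>
    (hv j).map (Hm.subtype M)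
  obtain ⟨j, l, hjl, hjlP⟩ := WIX_pig hP (fun j => fun i => ((v j i : M) : U)) hvU
  refine ⟨j, l, hjl, ?_⟩
  have h1 : Re P U (fun i => (((v j - v l) i : M) : U)) := hjlP
  have h2 : Sat1 (W k) M (x j - x l) := hPk M hM (v j - v l) h1
  have h3 : g j - g l = (x j - x l) - (x j - g j) + (x l - g l) := by abel
  rw [h3]
  exact (h2.sub (hxk j)).add (hxk l)

end Pool.Agent.AVF.BW
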