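import Pool.Agent.AVF.StW

/-!
# AVF, block W, module WLB: Lemma B (port of `VMF/WLB.lean`)
-/

set_option autoImplicit false
set_option linter.unusedSectionVars false
set_option linter.unusedVariables false

namespace Pool.Agent.AVF.BW

open Set Pool.Agent.AVC Pool.Agent.AVC.Ax

section

variable {R : Type} [RSig R] {ι : Type}

/-- `x` at the place `j`, zero elsewhere -/
private def wlb_hat {m : ℕ} (U : Type) [AddCommGroup U] (j : Fin m) :
    (ι → U) →+ (Fin m × ι → U) where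
  toFun x := fun p => if p.1 = j then x p.2 else 0
  map_zero' := by funext p; simp
  map_add' x y := by
    funext p
    by_cases h : p.1 = j <;> simp [h]

private theorem wlb_hat_same {m : ℕ} {U : Type} [AddCommGroup U] (j : Fin m) (x : ι → U) (i : ι) :
    wlb_hat U j x (j, i) = x i := if_pos rfl

private theorem wlb_hat_ne {m : ℕ} {U : Type} [AddCommGroup U] {j k : Fin m} (h : k ≠ j)
    (x : ι → U) (i : ι) : wlb_hat U j x (k, i) = 0 := if_neg h

private theorem wlb_fin (U : Type) [AddCommGroup U] [MoS R U] (V : Set (PP R ι)) (m : ℕ)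
    (S : Set (PP R (Fin m × ι))) (j : Fin m) (h : FIn U (pw V m) S) (T : Set (PP R ι))
    (hT : ∀ x : ι → U, Re T U x ↔ Re S U (wlb_hat U j x)) : FIn U V T := by
  have h1 : grp U T = (grp U S).comap (wlb_hat U j) := by
    ext x
    exact hT x
  have hle : (grp U V).map (wlb_hat U j) ≤ grp U (pw V m) := by
    rintro _ ⟨x, hx, rfl⟩
    rw [mem_grp, re_pw]
    intro k
    by_cases hk : k = j
    · subst hk
      have h2 : (fun i => wlb_hat U k x (k, i)) = x := funext fun i => wlb_hat_same k x i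
      rw [h2]
      exact hx
    · have h2 : (fun i => wlb_hat U j x (k, i)) = 0 := funext fun i => wlb_hat_ne hk x i
      rw [h2]
      exact Re.zero V
  unfold FIn
  rw [h1, AddSubgroup.relIndex_comap]
  exact fun h0 => h (AddSubgroup.relIndex_eq_zero_of_le_right hle h0)

end

/-- Lemma B -/
theorem thm_WLB (hGV : St_WGV) (hPR : St_WPR) (hPU : St_WPU) (hFC : St_WFC) : St_WLB := by
  intro R _ _ U hU hA α ι _ _ E hE V W N hyp
  classical
  obtain ⟨M₀, hM₀, e₀, he₀⟩ := hE
  have he : ARe E U (fun i => (e₀ i : U)) := fun φ hφ =>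
    ((hPU R U hU M₀ hM₀ α φ e₀).1).1 ((hPU R U hU M₀ hM₀ α φ e₀).1.2 (he₀ φ hφ))
  obtain ⟨g, hg1, -, hg3⟩ := hGV R U hU hA α ι (fun i => (e₀ i : U)) V (N + 1) (fun _ => 0)
    (fun _ => Re.zero V)
  let b : α ⊕ (Fin (N + 1) × ι) → U :=
    Sum.elim (fun i => (e₀ i : U)) (fun p : Fin (N + 1) × ι => g p.1 p.2)
  obtain ⟨M, hM, hb, hat⟩ := hPR R U hU (α ⊕ (Fin (N + 1) × ι)) b
  have hKE : KE U E M := ⟨hM, fun i => ⟨(e₀ i : U), hb (Sum.inl i)⟩, he⟩
  obtain ⟨j, l, hjl, t, ht⟩ := hyp M hKE (fun j i => ⟨g j i, hb (Sum.inr (j, i))⟩)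
    (fun j φ hφ => ((hPU R U hU M hM ι φ _).2).mpr (hg1 j φ hφ))
  obtain ⟨θ, hθ⟩ := hat W.1 t
  -- the type `V'`
  obtain ⟨T, hT⟩ := exists_subst_set
    (afib (R := R) U (fun i => (e₀ i : U)) (fun p : Fin (N + 1) × ι => g p.1 p.2))
    (fun p => if p.1 = j then Finsupp.single p.2 (1 : R) else 0)
  have hT' : ∀ (M' : Type) [AddCommGroup M'] [MoS R M'] (x : ι → M'),
      (fun p : Fin (N + 1) × ι => Finsupp.linearCombination R x
        (if p.1 = j then Finsupp.single p.2 (1 : R) else 0)) = wlb_hat M' j x := by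
    intro M' _ _ x
    funext p
    by_cases hp : p.1 = j
    · rw [if_pos hp, Finsupp.linearCombination_single, one_smul]
      exact (if_pos hp).symm
    · rw [if_neg hp, map_zero]
      exact (if_neg hp).symm
  have hTU : ∀ x : ι → U, Re T U x ↔
      Re (afib (R := R) U (fun i => (e₀ i : U)) (fun p : Fin (N + 1) × ι => g p.1 p.2)) U
        (wlb_hat U j x) := by
    intro x
    rw [hT U x, hT' U x]
  obtain ⟨ψ, hψ1, -, hψ3⟩ := hFC R U.md ι V T (wlb_fin U V (N + 1) _ j hg3 T hTU)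
  refine ⟨ψ, hψ1, fun M' hM' x hxV hxψ => ?_⟩
  -- the tuple `x` at the place `j`
  have hxU0 : Re (afib (R := R) U (fun i => (e₀ i : U)) (fun p : Fin (N + 1) × ι => g p.1 p.2)) U
      (wlb_hat U j (fun i => (x i : U))) := by
    rw [← hTU]
    exact hψ3 _ (fun φ hφ => (hPU R U hU M' hM' ι φ x).2.mp (hxV φ hφ))
      ((hPU R U hU M' hM' ι ψ x).2.mp hxψ)
  have hxU : Re (app (R := R) U b) U
      (Sum.elim (0 : α → U) (wlb_hat U j (fun i => (x i : U)))) :=
    re_afib.1 hxU0
  have hcoe : (fun p => ((Sum.elim (0 : α → M') (wlb_hat M' j x) p : M') : U)) =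
      Sum.elim (0 : α → U) (wlb_hat U j (fun i => (x i : U))) := by
    funext p
    rcases p with i | p
    · rfl
    · by_cases hp : p.1 = j
      · change ((if p.1 = j then x p.2 else 0 : M') : U) = if p.1 = j then (x p.2 : U) else 0
        rw [if_pos hp, if_pos hp]
      · change ((if p.1 = j then x p.2 else 0 : M') : U) = if p.1 = j then (x p.2 : U) else 0
        rw [if_neg hp, if_neg hp]
        rfl
  obtain ⟨Θ, hΘ, hΘ0⟩ := (isAP_sat θ).ex
  have h1 : Sat Θ U (Sum.elim (0 : α → U) (wlb_hat U j (fun i => (x i : U)))) :=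
    hxU Θ ((hΘ U _).mp ⟨_, hθ.1⟩)
  rw [← hcoe] at h1
  obtain ⟨t', ht'⟩ := (hΘ0 M' _).mpr
    ((hPU R U hU M' hM' _ Θ (Sum.elim (0 : α → M') (wlb_hat M' j x))).2.mpr h1)
  have h2 := (hPU R U hU M' hM' _ θ _).2.mp ht'
  have hco2 : (fun i => ((Sum.elim (Sum.elim (0 : α → M') (wlb_hat M' j x)) t' i : M') : U)) =
      Sum.elim (Sum.elim (0 : α → U) (wlb_hat U j (fun i => (x i : U))))
        (fun i => (t' i : U)) := by
    rw [← hcoe]
    funext i
    cases i <;> rfl
  rw [hco2] at h2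
  have h3 := hθ.re hxU h2
  -- the substitution
  obtain ⟨T', hT2⟩ := exists_subst_set W.2
    (Sum.elim (fun i => Finsupp.single (Sum.inl (Sum.inr (j, i))) (1 : R) -
        Finsupp.single (Sum.inl (Sum.inr (l, i))) 1)
      (fun k => Finsupp.single (Sum.inr k) 1) :
      ι ⊕ Fin W.1 → ((α ⊕ (Fin (N + 1) × ι)) ⊕ Fin W.1 →₀ R))
  have hT3 : ∀ (z : α ⊕ (Fin (N + 1) × ι) → U) (y : Fin W.1 → U), Re T' U (Sum.elim z y) ↔
      Re W.2 U (Sum.elim (fun i => z (Sum.inr (j, i)) - z (Sum.inr (l, i))) y) := by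
    intro z y
    rw [hT2]
    have h4 : (fun i => Finsupp.linearCombination R (Sum.elim z y)
        ((Sum.elim (fun i => Finsupp.single (Sum.inl (Sum.inr (j, i))) (1 : R) -
          Finsupp.single (Sum.inl (Sum.inr (l, i))) 1) (fun k => Finsupp.single (Sum.inr k) 1) :
          ι ⊕ Fin W.1 → ((α ⊕ (Fin (N + 1) × ι)) ⊕ Fin W.1 →₀ R)) i)) =
        Sum.elim (fun i => z (Sum.inr (j, i)) - z (Sum.inr (l, i))) y := by
      funext i
      cases i with
      | inl i => simp
      | inr k => simp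
    rw [h4]
  have h6 : Re T' U (Sum.elim b (fun k => (t k : U))) := by
    rw [hT3]
    intro χ hχ
    have h7 := (hPU R U hU M hM _ χ _).2.mp (ht χ hχ)
    have h8 : (fun i => ((Sum.elim ((fun i => (⟨g j i, hb (Sum.inr (j, i))⟩ : M)) -
        fun i => (⟨g l i, hb (Sum.inr (l, i))⟩ : M)) t i : M) : U)) =
        Sum.elim (fun i => b (Sum.inr (j, i)) - b (Sum.inr (l, i))) (fun k => (t k : U)) := by
      funext i
      cases i <;> rfl
    rw [← h8]
    exact h7
  have h9 := (hT3 _ _).mp (re_app_re h3 h6)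
  refine ⟨t', fun χ hχ => (hPU R U hU M' hM' _ χ _).2.mpr ?_⟩
  have h10 : (fun i => ((Sum.elim x t' i : M') : U)) =
      Sum.elim (fun i => (Sum.elim (0 : α → U) (wlb_hat U j (fun i => (x i : U))))
          (Sum.inr (j, i)) -
        (Sum.elim (0 : α → U) (wlb_hat U j (fun i => (x i : U)))) (Sum.inr (l, i)))
        (fun i => (t' i : U)) := by
    funext i
    cases i with
    | inl i =>
      simp only [Sum.elim_inl, Sum.elim_inr]
      rw [wlb_hat_same, wlb_hat_ne (Ne.symm hjl), sub_zero]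
    | inr k => rfl
  rw [h10]
  exact h9 χ hχ

end Pool.Agent.AVF.BW
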