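import Pool.Agent.AVF.StW

/-!
# AVF, WPJ: projections of types of tuples (helper79)
-/

set_option autoImplicit false
set_option linter.unusedSectionVars false
set_option linter.unusedVariables false

namespace Pool.Agent.AVF.BW

open Set Pool.Agent.AVC Pool.Agent.AVC.Ax

theorem thm_WPJ : St_WPJ := by
  intro R _ _ U hU κ ι _ _ c d
  have key : ∀ x : κ → U, ARe (app (R := R) U c) U x → ∃ y : ι → U,
      ARe (app (R := R) U (Sum.elim c d)) U (Sum.elim x y) := by
    intro x hx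
    obtain ⟨y, hy, -⟩ := hU.sat κ ι x (app (R := R) U (Sum.elim c d)) ∅ (by
      intro s t hs ht
      obtain ⟨χ, hχ, -⟩ := (isAP_finset (R := R) s).ex
      have h1 : ASat χ U c := (hχ U c).1 ⟨d, fun φ hφ => hs hφ⟩
      obtain ⟨y, hy⟩ := (hχ U x).2 (hx χ h1)
      exact ⟨y, hy, fun φ hφ => (ht hφ).elim⟩)
    exact ⟨y, hy⟩
  intro x
  refine ⟨key x, fun hx => ?_⟩
  obtain ⟨y, hy⟩ := key (c + x) ((app_re c).add hx)
  refine ⟨y - d, ?_⟩
  have h1 := hy.sub (app_re (Sum.elim c d))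
  rwa [← elim_sub, add_sub_cancel_left] at h1

end Pool.Agent.AVF.BW
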