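import Pool.Agent.AVF.StW

/-!
# AVF, block W, [WPP], [WPD]

`(V^1)^m` is contained in `(V^m)^1`, `S^1 × T^1` is contained in `(S × T)^1`.
-/

set_option autoImplicit false
set_option linter.unusedSectionVars false
set_option linter.unusedVariables false

namespace Pool.Agent.AVF.BW

open Set Pool.Agent.AVC Pool.Agent.AVC.Ax

open Classical in
/-- the vector which is `v` on the block `b` and `0` elsewhere -/
private noncomputable def WPP_emb (U : Type) [AddCommGroup U] {ι κ : Type} (b : ι → κ) :
    (ι → U) →+ (κ → U) where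
  toFun := fun v p => if h : ∃ i, b i = p then v h.choose else 0
  map_zero' := by
    funext p
    by_cases h : ∃ i, b i = p
    · simp [h]
    · simp [h]
  map_add' := by
    intro v w
    funext p
    simp only [Pi.add_apply]
    split_ifs
    · rfl
    · rw [add_zero]

private theorem WPP_on {U : Type} [AddCommGroup U] {ι κ : Type} {b : ι → κ}
    (hb : Function.Injective b) (v : ι → U) (i : ι) : WPP_emb U b v (b i) = v i := by
  classical
  have h : ∃ j, b j = b i := ⟨i, rfl⟩
  show (if h : ∃ j, b j = b i then v h.choose else 0) = v i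
  rw [dif_pos h, hb h.choose_spec]

private theorem WPP_off {U : Type} [AddCommGroup U] {ι κ : Type} {b : ι → κ} (v : ι → U) (p : κ)
    (hp : ∀ i, b i ≠ p) : WPP_emb U b v p = 0 := by
  classical
  show (if h : ∃ j, b j = p then v h.choose else 0) = 0
  rw [dif_neg]
  rintro ⟨i, hi⟩
  exact hp i hi

private theorem WPP_key {R : Type} [RSig R] {U : Md R} {ι κ : Type} [Finite ι] [Finite κ]
    {b : ι → κ} (hb : Function.Injective b) (V : Set (PP R ι)) (S : Set (PP R κ))
    (hS : ∀ v : ι → U, Re V U v → Re S U (WPP_emb U b v)) (ψ : PP R κ) (hψ : ψ ∈ one U S)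
    (v : ι → U) (hv : Re (one U V) U v) : Sat ψ U (WPP_emb U b v) := by
  classical
  obtain ⟨h1, h2⟩ := hψ
  obtain ⟨ψj, hψj⟩ := (isPP_sat (R := R) ψ).subst (ι := ι)
    (fun p : κ => if h : ∃ i, b i = p then Finsupp.single h.choose (1 : R) else 0)
  have hψj' : ∀ v : ι → U, Sat ψj U v ↔ Sat ψ U (WPP_emb U b v) := by
    intro v
    refine (hψj U v).symm.trans ?_
    have e : (fun p : κ => Finsupp.linearCombination R v
        (if h : ∃ i, b i = p then Finsupp.single h.choose (1 : R) else 0)) = WPP_emb U b v := by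
      funext p
      show _ = if h : ∃ i, b i = p then v h.choose else 0
      split_ifs
      · rw [Finsupp.linearCombination_single, one_smul]
      · rw [map_zero]
    show Sat ψ U (fun p : κ => Finsupp.linearCombination R v
        (if h : ∃ i, b i = p then Finsupp.single h.choose (1 : R) else 0)) ↔ _
    rw [e]
  have hmap : (grp U V).map (WPP_emb U b) ≤ grp U S := by
    rintro _ ⟨v, hv, rfl⟩
    exact hS v hv
  have hg : grp U ({ψj} : Set (PP R ι)) = (grp U {ψ}).comap (WPP_emb U b) := by
    ext v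
    show Re {ψj} U v ↔ Re {ψ} U (WPP_emb U b v)
    constructor
    · intro h φ hφ
      rw [mem_singleton_iff.mp hφ]
      exact (hψj' v).1 (h ψj rfl)
    · intro h φ hφ
      rw [mem_singleton_iff.mp hφ]
      exact (hψj' v).2 (h ψ rfl)
  have hF : FIn U V {ψj} := by
    unfold FIn
    rw [hg, AddSubgroup.relIndex_comap]
    exact fun h0 => h1 (AddSubgroup.relIndex_eq_zero_of_le_right hmap h0)
  have hP : PIn U V {ψj} := by
    intro χ hχ v hv φ hφ
    rw [mem_singleton_iff.mp hφ, hψj']
    obtain ⟨χ', hχ'⟩ := ((isPP_sat (R := R) χ).comap (ι := κ) b).and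
      ((isPP_zero (R := R) (ι := {p : κ // ∀ i, b i ≠ p})).comap Subtype.val)
    refine h2 χ' ?_ _ ((hχ' U _).1 ⟨?_, ?_⟩) ψ rfl
    · intro y hy
      rw [← hχ' U y] at hy
      have e : y = WPP_emb U b (y ∘ b) := by
        funext p
        by_cases hp : ∃ i, b i = p
        · obtain ⟨i, rfl⟩ := hp
          rw [WPP_on hb]
          rfl
        · have hp' : ∀ i, b i ≠ p := fun i hi => hp ⟨i, hi⟩
          rw [WPP_off _ p hp']
          exact congrFun hy.2 ⟨p, hp'⟩
      rw [e]
      exact hS _ (hχ _ hy.1)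
    · have e : (WPP_emb U b v ∘ b) = v := by
        funext i
        exact WPP_on hb v i
      rw [e]
      exact hv
    · funext p
      exact WPP_off v p.1 p.2
  exact (hψj' _).1 (hv ψj ⟨hF, hP⟩)

private theorem WPP_mem {R : Type} [RSig R] {U : Md R} {κ : Type} {ψ : PP R κ} {x : κ → U}
    (h : Sat ψ U x) : x ∈ grp U ({ψ} : Set (PP R κ)) := by
  intro φ hφ
  rw [mem_singleton_iff.mp hφ]
  exact h

theorem thm_WPP : St_WPP := by
  classical
  intro R _ _ U hM ι _ V m x hx ψ hψ
  have hb : ∀ j : Fin m, Function.Injective (fun i : ι => (j, i)) := fun j i i' h =>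
    congrArg Prod.snd h
  have key : ∀ j : Fin m, Sat ψ U (WPP_emb U (fun i : ι => (j, i)) fun i => x (j, i)) := by
    intro j
    refine WPP_key (hb j) V (pw V m) (fun v hv => ?_) ψ hψ _ (hx j)
    rw [re_pw]
    intro k
    by_cases hk : k = j
    · subst hk
      have e : (fun i => WPP_emb U (fun i : ι => (k, i)) v (k, i)) = v := by
        funext i
        exact WPP_on (hb k) v i
      rw [e]
      exact hv
    · have e : (fun i => WPP_emb U (fun i : ι => (j, i)) v (k, i)) = 0 := by
        funext i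
        exact WPP_off v _ fun i' h => hk (congrArg Prod.fst h).symm
      rw [e]
      exact Re.zero V
  have e : x = ∑ j : Fin m, WPP_emb U (fun i : ι => (j, i)) fun i => x (j, i) := by
    funext p
    obtain ⟨k, i⟩ := p
    rw [Finset.sum_apply, Finset.sum_eq_single k]
    · exact (WPP_on (hb k) (fun i => x (k, i)) i).symm
    · intro j _ hj
      exact WPP_off _ _ fun i' h => hj (congrArg Prod.fst h)
    · intro h
      exact absurd (Finset.mem_univ _) h
  have h3 : x ∈ grp U ({ψ} : Set (PP R (Fin m × ι))) := by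
    rw [e]
    exact AddSubgroup.sum_mem _ fun j _ => WPP_mem (key j)
  exact h3 ψ rfl

theorem thm_WPD : St_WPD := by
  classical
  intro R _ _ U hM κ ι _ _ S T x hx hy ψ hψ
  have k1 : Sat ψ U (WPP_emb U (Sum.inl : κ → κ ⊕ ι) (x ∘ Sum.inl)) := by
    refine WPP_key Sum.inl_injective S (jn S T) (fun v hv => ?_) ψ hψ _ hx
    rw [re_jn]
    constructor
    · have e : WPP_emb U (Sum.inl : κ → κ ⊕ ι) v ∘ Sum.inl = v := by
        funext i
        exact WPP_on Sum.inl_injective v i
      rw [e]
      exact hv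
    · have e : WPP_emb U (Sum.inl : κ → κ ⊕ ι) v ∘ Sum.inr = 0 := by
        funext i
        exact WPP_off v _ fun i' h => Sum.inl_ne_inr h
      rw [e]
      exact Re.zero T
  have k2 : Sat ψ U (WPP_emb U (Sum.inr : ι → κ ⊕ ι) (x ∘ Sum.inr)) := by
    refine WPP_key Sum.inr_injective T (jn S T) (fun v hv => ?_) ψ hψ _ hy
    rw [re_jn]
    constructor
    · have e : WPP_emb U (Sum.inr : ι → κ ⊕ ι) v ∘ Sum.inl = 0 := by
        funext i
        exact WPP_off v _ fun i' h => Sum.inr_ne_inl h
      rw [e]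
      exact Re.zero S
    · have e : WPP_emb U (Sum.inr : ι → κ ⊕ ι) v ∘ Sum.inr = v := by
        funext i
        exact WPP_on Sum.inr_injective v i
      rw [e]
      exact hv
  have e : x = WPP_emb U (Sum.inl : κ → κ ⊕ ι) (x ∘ Sum.inl) +
      WPP_emb U (Sum.inr : ι → κ ⊕ ι) (x ∘ Sum.inr) := by
    funext p
    rcases p with i | i
    · rw [Pi.add_apply, WPP_on Sum.inl_injective, WPP_off _ _ fun i' h => Sum.inr_ne_inl h,
        add_zero]
      rfl
    · rw [Pi.add_apply, WPP_on Sum.inr_injective, WPP_off _ _ fun i' h => Sum.inl_ne_inr h,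
        zero_add]
      rfl
  have h3 : x ∈ grp U ({ψ} : Set (PP R (κ ⊕ ι))) := by
    rw [e]
    exact AddSubgroup.add_mem _ (WPP_mem k1) (WPP_mem k2)
  exact h3 ψ rfl

end Pool.Agent.AVF.BW
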