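import Pool.Agent.AVF.StW

/-!
# AVF, block W, WRD: reduction of `T1A U` to types (port of `VMF/WRD.lean`)
-/

set_option autoImplicit false
set_option linter.unusedSectionVars false
set_option linter.unusedVariables false

namespace Pool.Agent.AVF.BW

open Set Pool.Agent.AVC Pool.Agent.AVC.Ax

private theorem WRD_ex {R : Type} [RSig R] {ι κ : Type} (V : Set (PP R κ)) (f : ι → κ)
    (W : L1 R ι) : ∃ W' : L1 R κ, ∀ (M : Type) [AddCommGroup M] [MoS R M] (x : κ → M),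
      Sat1 W' M x ↔ (Re V M x ∧ Sat1 W M (x ∘ f)) := by
  obtain ⟨W', h⟩ := (isL0_re V).and ((isL0_sat1 W).comap f)
  exact ⟨W', fun M _ _ x => (h M x).symm⟩

theorem thm_WRD (hCR : St_WCR) (hPU : St_WPU) : St_WRD := by
  intro R _ _ U hU hco α ι _ _ E D W h1 h2 h3
  obtain ⟨m, ⟨e⟩⟩ := Finite.exists_equiv_fin (ι ⊕ Fin D.1)
  let V : Set (PP R (Fin m)) := ren e '' D.2
  have hV : ∀ (M : Type) [AddCommGroup M] [MoS R M] (x : Fin m → M),
      Re V M x ↔ Re D.2 M (x ∘ e) := fun M _ _ x => re_ren e D.2 x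
  let f : ι → Fin m := fun i => e (Sum.inl i)
  choose W' hW' using fun i : ℕ => WRD_ex V f (W i)
  have hsplit : ∀ (M : Type) (x : Fin m → M), x ∘ e =
      Sum.elim (x ∘ f) (fun j => x (e (Sum.inr j))) := by
    intro M x
    funext i
    cases i <;> rfl
  have hje : ∀ (M : Type) (x : ι → M) (t : Fin D.1 → M),
      (Sum.elim x t ∘ e.symm) ∘ e = Sum.elim x t := by
    intro M x t
    funext i
    exact congrArg (Sum.elim x t) (e.symm_apply_apply i)
  have hjf : ∀ (M : Type) (x : ι → M) (t : Fin D.1 → M),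
      (Sum.elim x t ∘ e.symm) ∘ f = x := by
    intro M x t
    funext i
    exact congrArg (Sum.elim x t) (e.symm_apply_apply (Sum.inl i))
  refine hco (α ⊕ Fin E.1) E.2 m V W' ⟨?_, ?_, ?_⟩
  · intro i M hM x hx
    exact ((hW' i M x).1 hx).1
  · intro i
    obtain ⟨M, ⟨N, hN, ⟨g⟩⟩, ⟨a, b, hab⟩, x, hx, hnx⟩ := h2 i
    obtain ⟨t, ht⟩ := hx.map g.hm
    refine ⟨N, ⟨hN, fun j => g (Sum.elim a b j), fun φ hφ => ?_⟩,
      Sum.elim (g ∘ x) t ∘ e.symm, ?_, ?_⟩
    · have h4 : ASat φ N (g ∘ Sum.elim a b) := (asat_iso g).2 (hab φ hφ)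
      exact (hPU R U hU N hN _ φ _).1.1 h4
    · rw [hV, hje]
      exact ht
    · intro h5
      have h6 := ((hW' i N _).1 h5).2
      rw [hjf] at h6
      have h7 := h6.map g.symm.hm
      have h8 : g.symm.hm ∘ (g ∘ x) = x := by
        funext j
        exact g.symm_apply_apply (x j)
      rw [h8] at h7
      exact hnx h7
  · rintro M ⟨hM, a, ha⟩ A c hc
    let M' : Ad R := ⟨M⟩
    have hMK : InK U M' := ⟨M, hM, ⟨AIe.refl R M⟩⟩
    have hE : ∃ a : α → M', ASat1 E M' a := by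
      refine ⟨a ∘ Sum.inl, a ∘ Sum.inr, fun φ hφ => ?_⟩
      have h4 : ASat φ M a := (hPU R U hU M hM _ φ a).1.2 (ha φ hφ)
      have h5 : Sum.elim (a ∘ Sum.inl) (a ∘ Sum.inr) = a := by
        funext j
        cases j <;> rfl
      rw [h5]
      exact h4
    let G : AddSubgroup (Fin m → M) := grp M V
    let H : ℕ → AddSubgroup G := fun i => (sat1Group (W' i) M).comap G.subtype
    have h4 : ∀ i (x : G), ∃ w ∈ H i, ∀ l < i, x - w ∈ H l := by
      rintro i ⟨x, hx⟩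
      have hxV : Re V M x := hx
      have h5 : Re D.2 M (Sum.elim (x ∘ f) (fun j => x (e (Sum.inr j)))) := by
        rw [← hsplit]
        exact (hV M x).1 hxV
      obtain ⟨y, hy1, hy2, hy3⟩ := h3 i M' hMK hE (x ∘ f) ⟨_, h5⟩
      obtain ⟨t, ht⟩ := h1 i M' hMK hE (x ∘ f - y) hy1
      have hy : Re V M (Sum.elim (x ∘ f - y) t ∘ e.symm) := by
        rw [hV, hje]
        exact ht
      refine ⟨⟨Sum.elim (x ∘ f - y) t ∘ e.symm, hy⟩, ?_, ?_⟩
      · show Sat1 (W' i) M (Sum.elim (x ∘ f - y) t ∘ e.symm)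
        rw [hW']
        refine ⟨hy, ?_⟩
        rw [hjf]
        exact hy1
      · intro l hl
        show Sat1 (W' l) M (x - Sum.elim (x ∘ f - y) t ∘ e.symm)
        rw [hW']
        refine ⟨Re.sub hxV hy, ?_⟩
        have h6 : (x - Sum.elim (x ∘ f - y) t ∘ e.symm) ∘ f = y := by
          have h7 : x ∘ f - (Sum.elim (x ∘ f - y) t ∘ e.symm) ∘ f = x ∘ f - (x ∘ f - y) :=
            congrArg (fun z => x ∘ f - z) (hjf M (x ∘ f - y) t)
          exact h7.trans (sub_sub_cancel _ _)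
        rw [h6]
        exact hy3 l hl
    obtain ⟨x, hx⟩ := hCR G H h4 A (fun i => ⟨c i, hc i⟩)
    exact ⟨x.1, x.2, fun i hi => hx i hi⟩

end Pool.Agent.AVF.BW
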