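import Pool.Agent.AVF.StW

/-!
# AVF, block W, module WRR: (R), affine form (port of VMF/WRR, helper43; helper59)
-/

set_option autoImplicit false
set_option linter.unusedSectionVars false
set_option linter.unusedVariables false

namespace Pool.Agent.AVF.BW

open Set Pool.Agent.AVC Pool.Agent.AVC.Ax

section

variable {R : Type} [RSig R] {ι κ : Type}

/-- a generating formula for a tuple with a finite index type -/
private theorem wrr_gen (U : Ad R) (b : κ → U) (N : Submodule R U) (hN : AtOv U b N) [Finite ι]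
    (c : ι → N) : ∃ θ : PP R (κ ⊕ ι), GenBy U b (fun j => (c j : U)) θ := by
  obtain ⟨l, ⟨e⟩⟩ := Finite.exists_equiv_fin ι
  obtain ⟨θ, h1, h2⟩ := hN.2 l (c ∘ e.symm)
  have k1 : ∀ (x : κ → U) (y : ι → U), (Sum.elim x y ∘ (Sum.map id e.symm : κ ⊕ Fin l → κ ⊕ ι)) =
      Sum.elim x (fun j => y (e.symm j)) := by
    intro x y
    funext j
    cases j <;> rfl
  have k2 : ∀ (x : κ → U) (y : ι → U), (Sum.elim x (fun j => y (e.symm j)) ∘
      (Sum.map id e : κ ⊕ ι → κ ⊕ Fin l)) = Sum.elim x y := by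
    intro x y
    funext j
    cases j
    · rfl
    · exact congrArg y (e.symm_apply_apply _)
  refine ⟨ren (Sum.map id e.symm) θ, ?_, ?_⟩
  · rw [asat_ren, k1]
    exact h1
  · intro x y hx hy
    rw [asat_ren, k1] at hy
    have h3 := h2 x (fun j => y (e.symm j)) hx hy
    intro φ hφ
    have h4 : ASat (ren (Sum.map id e : κ ⊕ ι → κ ⊕ Fin l) φ) U
        (Sum.elim b (fun j => ((c (e.symm j) : N) : U))) := by
      rw [asat_ren]
      have h5 := k2 b (fun j => (c j : U))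
      rw [h5]
      exact hφ
    have h6 := h3 _ h4
    rw [asat_ren, k2] at h6
    exact h6

end

/-- (R) -/
theorem thm_WRR (hPU : St_WPU) (hON : St_WON) (hKI : St_WKI) : St_WRR := by
  intro R _ _ U hU hA κ _ b N M hN hM hat b'' hb ι _ S c hc
  obtain ⟨θ, hθ⟩ := wrr_gen U b N hat c
  have hθ1 := hθ.1
  obtain ⟨hfull, hone⟩ := hON R U.md hU.md hA κ (app (R := R) U b)
  obtain ⟨ρ, hρ1, hρ2⟩ := (isAP_sat θ).ex
  have hρb : ∀ x : κ → U, Re (app (R := R) U b) U x → ∃ y : ι → U, Sat θ U (Sum.elim x y) :=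
    fun x hx => (hρ2 U x).mpr (hx ρ ((hρ1 U b).mp ⟨_, hθ1⟩))
  have hS : ∀ (u : κ → U) (y : ι → U), Re (app (R := R) U b) U u → Sat θ U (Sum.elim u y) →
      Re S U y := by
    intro u y hu hy φ hφ
    have h1 : Sat (ren (Sum.inr : ι → κ ⊕ ι) φ) U (Sum.elim b (fun j => (c j : U))) := by
      rw [sat_ren]
      exact hc φ hφ
    have h2 := re_app_sat (hθ.re hu hy) h1
    rw [sat_ren] at h2
    exact h2
  -- the tuple in `M`
  have hbU : ARe (app (R := R) U b) U (fun i => (b'' i : U)) := are_app_iff.2 (hone _ hb)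
  have h2 : ASat ρ U (fun i => (b'' i : U)) := hbU ρ ((hρ1 U b).mp ⟨_, hθ1⟩)
  obtain ⟨y, hy⟩ := (hρ1 M b'').mpr ((hPU R U hU M hM κ ρ b'').1.mpr h2)
  have h3 := (hPU R U hU M hM _ θ _).1.mp hy
  have h4 : (fun i => ((Sum.elim b'' y i : M) : U)) =
      Sum.elim (fun i => (b'' i : U)) (fun i => (y i : U)) := by
    funext i
    cases i <;> rfl
  rw [h4] at h3
  have h5 := ASat.sub h3 hθ1
  rw [← elim_sub] at h5
  exact ⟨y, hKI R U.md hU.md κ ι (one U (app (R := R) U b)) θ S hfull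
    (fun u hu => hρb u (hone u hu)) (fun u y hu hy => hS u y (hone u hu) hy) _ _ hb h5⟩

end Pool.Agent.AVF.BW
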