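import Pool.Agent.AVF.StW

/-!
# AVF, block W, [WRV], affine form (port of VMF/WRV, helper80; helper59)

Variant of (R) for a base tuple the type of which has finite index in a type.
-/

set_option autoImplicit false
set_option linter.unusedSectionVars false
set_option linter.unusedVariables false

namespace Pool.Agent.AVF.BW

open Set Pool.Agent.AVC Pool.Agent.AVC.Ax

theorem thm_WRV (hON : St_WON) (hC6 : St_WC6) (hFC : St_WFC) (hOP : St_WOP) : St_WRV := by
  intro R _ _ U hU hA κ _ b S hF hsub M hEl b' hd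
  have hfull := hON R U.md hU.md hA κ S
  obtain ⟨ψ, hψ1, -, hψ2⟩ := hFC R U.md κ S (app (R := R) U b) hF
  have hle : grp U (one U S) ≤ grp U S := fun x hx => hfull.2 x hx
  have hψ3 : FIn U (one U S) {ψ} := fun h0 =>
    hψ1 (AddSubgroup.relIndex_eq_zero_of_le_right hle h0)
  obtain ⟨u, hu1, hu2⟩ := hC6 R U hU M hEl κ (one U S) ψ _ hfull.1 hd hψ3
  refine ⟨fun i => b' i - u i, ?_⟩
  have he : ((fun i : κ => ((b' i - u i : M) : U)) - b) =
      ((fun i : κ => (b' i : U)) - b) - fun i => (u i : U) := by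
    funext i
    simp only [Pi.sub_apply, Submodule.coe_sub]
    abel
  rw [he]
  have h1 := Re.sub hd hu1
  have h2 := Sat.neg hu2
  rw [neg_sub] at h2
  exact hOP R U.md hU.md κ S _ hF hsub _ (hψ2 _ (hfull.2 _ h1) h2) h1

end Pool.Agent.AVF.BW
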