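import Pool.Agent.AVF.StW

/-!
# AVF, block W, module WSB: subsequences of coindependent sequences (port of VMF/WSB)
-/

set_option autoImplicit false
set_option linter.unusedSectionVars false
set_option linter.unusedVariables false

namespace Pool.Agent.AVF.BW

open Set Pool.Agent.AVC Pool.Agent.AVC.Ax

/-- [WSB] -/
theorem thm_WSB : St_WSB := by
  classical
  intro R _ U α ι E V W f hf hC
  obtain ⟨h1, h2, h3⟩ := hC
  refine ⟨fun i => h1 (f i), fun i => h2 (f i), fun M hM A c hc => ?_⟩
  obtain ⟨x, hx, hx'⟩ := h3 M hM (A.image f) (Function.extend f c fun _ => 0) (by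
    intro j
    by_cases hj : ∃ i, f i = j
    · obtain ⟨i, rfl⟩ := hj
      rw [hf.extend_apply]
      exact hc i
    · rw [Function.extend_apply' _ _ _ hj]
      exact Re.zero V)
  refine ⟨x, hx, fun i hi => ?_⟩
  have h4 := hx' (f i) (Finset.mem_image_of_mem f hi)
  rw [hf.extend_apply] at h4
  exact h4

end Pool.Agent.AVF.BW
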