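import Pool.Agent.AVF.TLA
import Pool.Agent.AVF.AllQ
import Pool.Agent.AVF.W.ADW
import Pool.Agent.AVF.W.W2A
import Pool.Agent.AVF.W.W2B
import Pool.Agent.AVF.W.WAS
import Pool.Agent.AVF.W.WC0
import Pool.Agent.AVF.W.WC1
import Pool.Agent.AVF.W.WCR
import Pool.Agent.AVF.W.WFC
import Pool.Agent.AVF.W.WGS
import Pool.Agent.AVF.W.WGV
import Pool.Agent.AVF.W.WIM
import Pool.Agent.AVF.W.WIN
import Pool.Agent.AVF.W.WIS
import Pool.Agent.AVF.W.WIX
import Pool.Agent.AVF.W.WJN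
import Pool.Agent.AVF.W.WLB
import Pool.Agent.AVF.W.WOP
import Pool.Agent.AVF.W.WPJ
import Pool.Agent.AVF.W.WPP
import Pool.Agent.AVF.W.WRD
import Pool.Agent.AVF.W.WRR
import Pool.Agent.AVF.W.WRV
import Pool.Agent.AVF.W.WSB

/-!
# AVF, block W: assembly. `T1A U` from Claim A and few types (helper79)
-/

set_option autoImplicit false

namespace Pool.Agent.AVF.BW

theorem thm_WALL : St_WAS := by
  have hPU := thm_WPU
  have hHO := thm_WHO hom_T
  have hG4 := thm_WG4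
  have hFC := thm_WFC
  have hON := thm_WON
  have hPJ := thm_WPJ
  have hJN := thm_WJN hPJ
  have hGV := thm_WGV hG4 hPJ
  have hGS := thm_WGS hG4 hPJ
  have hPR := thm_WPR prm_T
  have hTL := thm_WTL tli_T
  have hC5 := thm_WC5 all_COS
  have hC6 := thm_WC6 all_TF6
  have hKI := thm_WKI all_KIL
  have hLB := thm_WLB hGV hPR hPU hFC
  have hIX := thm_WIX hPU
  have hC1 := thm_WC1 hGS hTL hPU hIX hLB
  have hOP := thm_WOP hFC
  have hRR := thm_WRR hPU hON hKI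
  have hRV := thm_WRV hON hC6 hFC hOP
  have hIM := thm_WIM hON hC6 hPU
  have h2A := thm_W2A hG4 hGV hPR hJN thm_WPP thm_WPD hRV hRR hIM hPU
  have hIN := thm_WIN hC5 hPU
  have hIS := thm_WIS hHO
  have h2B := thm_W2B hIN hIS hPU
  exact thm_WAS (thm_WRD thm_WCR hPU) thm_WSB (thm_WC0 hPU) hC1 h2A h2B

end Pool.Agent.AVF.BW
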