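import Pool.Agent.AVF.StW

/-!
# AVF, WJN: the index of the type of a pair (helper79)
-/

set_option autoImplicit false
set_option linter.unusedSectionVars false
set_option linter.unusedVariables false

namespace Pool.Agent.AVF.BW

open Set Pool.Agent.AVC Pool.Agent.AVC.Ax

/-- the index of `H` in `G`, from the index of the images under `p` and of the kernels, which are
parametrised by `q` -/
theorem idx_ker {A B C : Type} [AddCommGroup A] [AddCommGroup B] [AddCommGroup C]
    (p : A →+ B) (q : C →+ A) (H G : AddSubgroup A) (G₁ : AddSubgroup B) (H₁ : AddSubgroup B)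
    (V : AddSubgroup C) (hHG : H ≤ G) (h1 : ∀ x ∈ G, p x ∈ G₁) (h2 : H₁.relIndex G₁ ≠ 0)
    (h3 : ∀ y ∈ H₁, ∃ x ∈ H, p x = y) (h4 : (H.comap q).relIndex V ≠ 0)
    (h5 : ∀ x ∈ G, p x = 0 → ∃ v ∈ V, q v = x) : H.relIndex G ≠ 0 := by
  have h6 : H.relIndex (V.map q) ≠ 0 := by
    rw [← AddSubgroup.relIndex_comap]
    exact h4
  have h7 : H.relIndex (H ⊔ V.map q) ≠ 0 := by
    rw [AddSubgroup.relIndex_sup_left]
    exact h6
  have h8 : (H₁.comap p).relIndex G ≠ 0 := by
    rw [AddSubgroup.relIndex_comap]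
    intro h
    refine h2 (AddSubgroup.relIndex_eq_zero_of_le_right ?_ h)
    rintro y ⟨x, hx, rfl⟩
    exact h1 x hx
  have h9 : (H₁.comap p ⊓ G).relIndex G ≠ 0 := by
    rw [AddSubgroup.inf_relIndex_right]
    exact h8
  have h10 : H.relIndex (H₁.comap p ⊓ G) ≠ 0 := by
    intro h
    refine h7 (AddSubgroup.relIndex_eq_zero_of_le_right ?_ h)
    rintro x ⟨hx, hxG⟩
    obtain ⟨y, hy, hyx⟩ := h3 (p x) hx
    have h11 : p (x - y) = 0 := by rw [map_sub, hyx, sub_self]
    obtain ⟨v, hv, hvx⟩ := h5 (x - y) (G.sub_mem hxG (hHG hy)) h11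
    have h12 : x = y + q v := by rw [hvx]; abel
    rw [h12]
    exact AddSubgroup.add_mem_sup hy ⟨v, hv, rfl⟩
  exact AddSubgroup.relIndex_ne_zero_trans h10 h9

theorem thm_WJN (hPJ : St_WPJ) : St_WJN := by
  intro R _ _ U hU κ ι _ _ b c S T hS hT hle
  let p : (κ ⊕ ι → U) →+ (κ → U) :=
    { toFun := fun x => x ∘ Sum.inl
      map_zero' := rfl
      map_add' := fun x y => rfl }
  let q : (ι → U) →+ (κ ⊕ ι → U) :=
    { toFun := fun v => Sum.elim 0 v
      map_zero' := by
        funext s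
        cases s <;> rfl
      map_add' := by
        intro v w
        funext s
        cases s
        · exact (add_zero (0 : U)).symm
        · rfl }
  refine idx_ker p q _ _ (grp U S) (grp U (app (R := R) U b)) (grp U T) ?_ ?_ hS ?_ ?_ ?_
  · intro x hx
    exact hle x hx
  · intro x hx
    exact ((re_jn S T x).1 hx).1
  · intro x hx
    obtain ⟨y, hy⟩ := (hPJ R U hU κ ι b c x).2 hx
    exact ⟨Sum.elim x y, hy, rfl⟩
  · have h8 : AddSubgroup.comap q (grp U (app (R := R) U (Sum.elim b c))) =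
        grp U (afib (R := R) U b c) := by
      ext v
      show Re (app (R := R) U (Sum.elim b c)) U (Sum.elim 0 v) ↔ Re (afib (R := R) U b c) U v
      exact re_afib.symm
    rw [h8]
    exact hT
  · intro x hx hpx
    refine ⟨x ∘ Sum.inr, ((re_jn S T x).1 hx).2, ?_⟩
    funext s
    rcases s with i | i
    · exact (congrFun hpx i).symm
    · rfl

end Pool.Agent.AVF.BW
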